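import Mathlib
import Pool.Agent.TH419.WI.Rel

/-!
# The subspace theorem along an ultrafilter, real algebraic forms, integer points
-/

set_option autoImplicit false

open Finset Filter Topology

namespace Pool.Agent.D0H59.SU

open Pool.Agent.TH419.WI

/-- the primes dividing `b` -/
noncomputable def gp (b : ℕ) (v : Fin b.primeFactors.card) : ℕ := b.primeFactors.orderEmbOfFin rfl v

lemma gp_mem (b : ℕ) (v : Fin b.primeFactors.card) : gp b v ∈ b.primeFactors :=
  Finset.orderEmbOfFin_mem _ _ _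

lemma gp_pos (b : ℕ) (v : Fin b.primeFactors.card) : 0 < gp b v :=
  (Nat.prime_of_mem_primeFactors (gp_mem b v)).pos

/-- a number composed of the primes of `b` is a product of powers of the primes of `b` -/
lemma mon_fact (b D : ℕ) (hD0 : D ≠ 0) (hD : D.primeFactors ⊆ b.primeFactors) :
    mon (gp b) (fun v => D.factorization (gp b v)) = (D : ℤ) := by
  unfold mon
  have h1 : ∏ v, ((gp b v : ℕ) : ℤ) ^ D.factorization (gp b v) =
      ∏ p ∈ b.primeFactors, (p : ℤ) ^ D.factorization p := by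
    have h2 := Finset.prod_map (Finset.univ : Finset (Fin b.primeFactors.card))
      (b.primeFactors.orderEmbOfFin rfl).toEmbedding (fun p : ℕ => (p : ℤ) ^ D.factorization p)
    rw [Finset.map_orderEmbOfFin_univ] at h2
    rw [h2]
    rfl
  rw [h1]
  have h3 : ∏ p ∈ b.primeFactors, p ^ D.factorization p = D := by
    conv_rhs => rw [← Nat.prod_factorization_pow_eq_self hD0]
    rw [Finsupp.prod]
    symm
    apply Finset.prod_subset
    · intro p hp
      rw [Nat.support_factorization] at hp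
      exact hD hp
    · intro p _ hp
      rw [Finsupp.notMem_support_iff] at hp
      rw [hp, pow_zero]
  exact_mod_cast h3

/-- the subspace theorem for lower triangular real algebraic forms `M` -/
theorem sub_real {n : ℕ} (hn : 1 ≤ n) (b : ℕ) (M : Matrix (Fin n) (Fin n) ℝ)
    (halg : ∀ i j, IsAlgebraic ℚ (M i j)) (htri : ∀ i j, i < j → M i j = 0)
    (hdiag : ∀ i, M i i ≠ 0)
    (N : ℕ → ℝ) (hN : Tendsto N atTop atTop)
    (x : ℕ → Fin n → ℤ) (hx : ∀ t, x t ≠ 0)
    (D : ℕ → Fin n → ℕ) (hD0 : ∀ t l, D t l ≠ 0)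
    (hD : ∀ t l, (D t l).primeFactors ⊆ b.primeFactors)
    (hdiv : ∀ t l, (D t l : ℤ) ∣ x t l)
    (A : ℕ → Fin n → ℝ) (hA : ∀ t l, 0 < A t l) (c γ : ℝ) (hc : 0 ≤ c) (hγ : 0 < γ)
    (h1 : ∀ t, ∑ l, Real.log (D t l) ≤ c * N t)
    (h3 : ∀ t l, |Real.log (A t l)| ≤ c * N t)
    (h4 : ∀ t, ∑ l, Real.log (A t l) + γ * N t ≤ ∑ l, Real.log (D t l))
    (hsmall : ∀ t l, |∑ j, M l j * x t j| ≤ A t l) :
    ∃ y : Fin n → ℤ, y ≠ 0 ∧ ∃ᶠ t in atTop, ∑ l, y l * x t l = 0 := by
  classical
  -- the number field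
  set F : IntermediateField ℚ ℝ :=
    IntermediateField.adjoin ℚ (Set.range fun p : Fin n × Fin n => M p.1 p.2) with hFdef
  have hF : FiniteDimensional ℚ F := by
    apply IntermediateField.finiteDimensional_adjoin
    rintro x ⟨i, rfl⟩
    exact (halg i.1 i.2).isIntegral
  have : NumberField F := { to_charZero := inferInstance, to_finiteDimensional := hF }
  let cc : Fin n × Fin n → F := fun i =>
    ⟨M i.1 i.2, IntermediateField.subset_adjoin ℚ _ ⟨i, rfl⟩⟩
  obtain ⟨Nn, hNn⟩ := IsLocalization.exist_integer_multiples_of_finite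
    (nonZeroDivisors (NumberField.RingOfIntegers F)) cc
  have hN0 : (Nn : NumberField.RingOfIntegers F) ≠ 0 := nonZeroDivisors.ne_zero Nn.2
  have hN' : ∀ i, ∃ M : NumberField.RingOfIntegers F,
      algebraMap (NumberField.RingOfIntegers F) F M
        = algebraMap (NumberField.RingOfIntegers F) F (Nn : NumberField.RingOfIntegers F)
          * cc i := by
    intro i
    obtain ⟨M, hM⟩ := hNn i
    refine ⟨M, ?_⟩
    rw [hM, Algebra.smul_def]
  choose d hd using hN'
  have hinj : Function.Injective (algebraMap (NumberField.RingOfIntegers F) F) :=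
    IsFractionRing.injective _ _
  set ψ : NumberField.RingOfIntegers F →+* ℝ :=
    (algebraMap F ℝ).comp (algebraMap (NumberField.RingOfIntegers F) F) with hψ
  set φ : NumberField.RingOfIntegers F →+* ℂ := Complex.ofRealHom.comp ψ with hφ
  set ν : ℝ := ψ (Nn : NumberField.RingOfIntegers F) with hν
  have hψinj : Function.Injective ψ := (algebraMap F ℝ).injective.comp hinj
  have hν0 : ν ≠ 0 := by
    intro h
    apply hN0
    apply hψinj
    rw [map_zero]
    exact h
  have hνp : 0 < |ν| := abs_pos.2 hν0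
  have hψd : ∀ i, ψ (d i) = ν * M i.1 i.2 := by
    intro i
    have h1 := congrArg (algebraMap F ℝ) (hd i)
    rw [map_mul] at h1
    exact h1
  set M0 : Matrix (Fin n) (Fin n) (NumberField.RingOfIntegers F) := fun i j => d (i, j) with hM0
  have hdet : M0.det ≠ 0 := by
    rw [Matrix.det_of_isLowerTriangular]
    · refine Finset.prod_ne_zero_iff.2 fun i _ => ?_
      intro h0
      have h1 := hψd (i, i)
      rw [show d (i, i) = M0 i i from rfl, h0, map_zero] at h1
      exact (mul_ne_zero hν0 (hdiag i)) h1.symm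
    · intro i j hij
      simp only [OrderDual.toDual_lt_toDual] at hij
      apply hψinj
      rw [map_zero, show M0 i j = d (i, j) from rfl, hψd]
      simp only
      rw [htri i j hij, mul_zero]
  have hre : ∀ z, ‖φ z‖ = |ψ z| := by
    intro z
    rw [hφ, RingHom.comp_apply, Complex.ofRealHom_eq_coe, Complex.norm_real, Real.norm_eq_abs]
  have hlogA : ∀ (t : ℕ) (l : Fin n), Real.log (|ν| * A t l) =
      Real.log (|ν|) + Real.log (A t l) := by
    intro t l
    rw [Real.log_mul hνp.ne' (hA t l).ne']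
  have hmon : ∀ t l, mon (gp b) (fun v => (D t l).factorization (gp b v)) = (D t l : ℤ) :=
    fun t l => mon_fact b _ (hD0 t l) (hD t l)
  set c0 : ℝ := 1 + |Real.log (|ν|)| + c with hc0
  have hK0 : 0 ≤ |Real.log (|ν|)| := abs_nonneg _
  have hev1 : ∀ᶠ t in atTop, (1 : ℝ) ≤ N t := hN.eventually_ge_atTop 1
  have hev2 : ∀ᶠ t in atTop, (n : ℝ) * Real.log (|ν|) ≤ γ / 2 * N t := by
    have h1 : Tendsto (fun t => γ / 2 * N t) atTop atTop :=
      hN.const_mul_atTop (by positivity)
    exact h1.eventually_ge_atTop _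
  have key := subDiag (NumberField.RingOfIntegers F) φ hn (gp b) (gp_pos b) M0 hdet
    (fun i j => by
      rw [hφ, RingHom.comp_apply]
      exact Complex.ofReal_im _)
    c0 (γ / 2) (by linarith) (by positivity) N hN
    (fun t l v => (D t l).factorization (gp b v))
    (fun t l => |ν| * A t l)
    (fun t l => x t l / (D t l : ℤ))
    (by
      filter_upwards [hev1] with t ht
      simp only [hmon]
      have h2 : ∑ l, Real.log (((D t l : ℕ) : ℤ) : ℝ) = ∑ l, Real.log (D t l) := by
        refine Finset.sum_congr rfl fun l _ => ?_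
        simp
      rw [h2]
      refine (h1 t).trans ?_
      exact mul_le_mul_of_nonneg_right (by linarith) (by linarith))
    (by
      filter_upwards with t l
      exact mul_pos hνp (hA t l))
    (by
      filter_upwards [hev1] with t ht l
      rw [hlogA]
      calc abs (Real.log (|ν|) + Real.log (A t l)) ≤
            abs (Real.log (|ν|)) + abs (Real.log (A t l)) := abs_add_le _ _
        _ ≤ abs (Real.log (|ν|)) * N t + c * N t :=
            add_le_add (by nlinarith) (h3 t l)
        _ ≤ c0 * N t := by nlinarith)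
    (by
      filter_upwards [hev1, hev2] with t ht ht2
      simp only [hmon, hlogA]
      rw [Finset.sum_add_distrib, Finset.sum_const, Finset.card_univ, Fintype.card_fin,
        nsmul_eq_mul]
      have h1 := h4 t
      have h2 : ∑ l, Real.log (((D t l : ℕ) : ℤ) : ℝ) = ∑ l, Real.log (D t l) := by
        refine Finset.sum_congr rfl fun l _ => ?_
        simp
      rw [h2]
      linarith)
    (by
      filter_upwards with t h0
      apply hx t
      funext l
      have h1 := congrFun h0 l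
      simp only [Pi.zero_apply] at h1
      have h2 := Int.ediv_mul_cancel (hdiv t l)
      rw [h1, zero_mul] at h2
      rw [Pi.zero_apply]
      exact h2.symm)
    (by
      filter_upwards with t l
      simp only [hmon]
      have h1 : ∀ j, (D t j : ℤ) * (x t j / (D t j : ℤ)) = x t j := fun j =>
        Int.mul_ediv_cancel' (hdiv t j)
      simp only [h1]
      rw [hre, map_sum]
      have h2 : ∑ j, ψ (M0 l j * ((x t j : ℤ) : NumberField.RingOfIntegers F)) =
          ν * ∑ j, M l j * x t j := by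
        rw [Finset.mul_sum]
        refine Finset.sum_congr rfl fun j _ => ?_
        rw [map_mul, map_intCast, show M0 l j = d (l, j) from rfl, hψd]
        ring
      rw [h2, abs_mul]
      exact mul_le_mul_of_nonneg_left (hsmall t l) (abs_nonneg _))
  obtain ⟨y, hy, hfr⟩ := key
  refine ⟨y, hy, hfr.mono fun t ht => ?_⟩
  rw [← ht]
  refine Finset.sum_congr rfl fun l _ => ?_
  rw [hmon, Int.mul_ediv_cancel' (hdiv t l)]

/-- the subspace theorem along an ultrafilter -/
theorem sub_ultra (U : Ultrafilter ℕ) {n : ℕ} (hn : 1 ≤ n) (b : ℕ) (M : Matrix (Fin n) (Fin n) ℝ)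
    (halg : ∀ i j, IsAlgebraic ℚ (M i j)) (htri : ∀ i j, i < j → M i j = 0)
    (hdiag : ∀ i, M i i ≠ 0)
    (N : ℕ → ℝ) (hN : Tendsto N U atTop)
    (x : ℕ → Fin n → ℤ)
    (D : ℕ → Fin n → ℕ) (hD0 : ∀ᶠ t in (U : Filter ℕ), ∀ l, D t l ≠ 0)
    (hD : ∀ᶠ t in (U : Filter ℕ), ∀ l, (D t l).primeFactors ⊆ b.primeFactors)
    (hdiv : ∀ᶠ t in (U : Filter ℕ), ∀ l, (D t l : ℤ) ∣ x t l)
    (A : ℕ → Fin n → ℝ) (hA : ∀ᶠ t in (U : Filter ℕ), ∀ l, 0 < A t l) (c γ : ℝ) (hc : 0 ≤ c)
    (hγ : 0 < γ)
    (h1 : ∀ᶠ t in (U : Filter ℕ), ∑ l, Real.log (D t l) ≤ c * N t)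
    (h3 : ∀ᶠ t in (U : Filter ℕ), ∀ l, |Real.log (A t l)| ≤ c * N t)
    (h4 : ∀ᶠ t in (U : Filter ℕ), ∑ l, Real.log (A t l) + γ * N t ≤ ∑ l, Real.log (D t l))
    (hsmall : ∀ᶠ t in (U : Filter ℕ), ∀ l, |∑ j, M l j * x t j| ≤ A t l) :
    ∃ y : Fin n → ℤ, y ≠ 0 ∧ ∀ᶠ t in (U : Filter ℕ), ∑ l, y l * x t l = 0 := by
  classical
  by_contra hno
  push Not at hno
  have hno' : ∀ y : Fin n → ℤ, y ≠ 0 → ∀ᶠ t in (U : Filter ℕ), ∑ l, y l * x t l ≠ 0 := by
    intro y hy
    exact hno y hy
  have hall : ∀ T : ℕ, ∀ᶠ t in (U : Filter ℕ), ((∀ l, D t l ≠ 0) ∧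
      (∀ l, (D t l).primeFactors ⊆ b.primeFactors) ∧ (∀ l, (D t l : ℤ) ∣ x t l) ∧
      (∀ l, 0 < A t l) ∧ (∑ l, Real.log (D t l) ≤ c * N t) ∧
      (∀ l, |Real.log (A t l)| ≤ c * N t) ∧
      (∑ l, Real.log (A t l) + γ * N t ≤ ∑ l, Real.log (D t l)) ∧
      (∀ l, |∑ j, M l j * x t j| ≤ A t l) ∧ x t ≠ 0) ∧ (T : ℝ) ≤ N t ∧
      ∀ s ∈ Finset.range T, ∀ y : Fin n → ℤ, Encodable.decode s = some y → y ≠ 0 →
        ∑ l, y l * x t l ≠ 0 := by
    intro T
    refine Filter.Eventually.and ?_ (Filter.Eventually.and (hN.eventually_ge_atTop _) ?_)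
    · filter_upwards [hD0, hD, hdiv, hA, h1, h3, h4, hsmall,
        hno' (Pi.single ⟨0, hn⟩ 1) (by simp)] with t g1 g2 g3 g4 g5 g6 g7 g8 g9
      exact ⟨g1, g2, g3, g4, g5, g6, g7, g8, fun h0 => g9 (by simp [h0])⟩
    · rw [Filter.eventually_all_finset]
      intro s _
      rcases hs : (Encodable.decode s : Option (Fin n → ℤ)) with _ | y
      · exact Filter.Eventually.of_forall fun t y hy => by simp at hy
      · by_cases hy : y = 0
        · refine Filter.Eventually.of_forall fun t y' hy' h0 => ?_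
          rw [Option.some.injEq] at hy'
          exact absurd (hy' ▸ hy) h0
        · filter_upwards [hno' y hy] with t ht y' hy' _
          rw [Option.some.injEq] at hy'
          rw [← hy']
          exact ht
  choose m hm1 hm2 hm3 using fun T => (hall T).exists
  obtain ⟨y, hy, hfr⟩ := sub_real hn b M halg htri hdiag (fun T => N (m T))
    (tendsto_atTop_mono hm2 tendsto_natCast_atTop_atTop) (fun T => x (m T))
    (fun T => (hm1 T).2.2.2.2.2.2.2.2)
    (fun T => D (m T)) (fun T => (hm1 T).1) (fun T => (hm1 T).2.1) (fun T => (hm1 T).2.2.1)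
    (fun T => A (m T)) (fun T => (hm1 T).2.2.2.1) c γ hc hγ (fun T => (hm1 T).2.2.2.2.1)
    (fun T => (hm1 T).2.2.2.2.2.1) (fun T => (hm1 T).2.2.2.2.2.2.1)
    (fun T => (hm1 T).2.2.2.2.2.2.2.1)
  obtain ⟨T, hT, hTy⟩ := Filter.frequently_atTop.1 hfr (Encodable.encode y + 1)
  exact hm3 T (Encodable.encode y) (Finset.mem_range.2 (by omega)) y (Encodable.encodek y) hy hTy

end Pool.Agent.D0H59.SU
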