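import Mathlib
import Pool.Agent.D0H59.SU.Sub

/-!
# Integers close to a fixed algebraic combination of numbers composed of fixed primes
-/

set_option autoImplicit false

open Finset Filter Topology

namespace Pool.Agent.D0H59.SU

/-- the sequences which are zero along `U` -/
def Z (U : Ultrafilter ℕ) : Submodule ℚ (ℕ → ℚ) where
  carrier := {f | ∀ᶠ m in (U : Filter ℕ), f m = 0}
  add_mem' := by
    intro f g hf hg
    filter_upwards [hf, hg] with m h1 h2
    simp [h1, h2]
  zero_mem' := Filter.Eventually.of_forall fun _ => rfl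
  smul_mem' := by
    intro c f hf
    filter_upwards [hf] with m h1
    simp [h1]

lemma mem_Z (U : Ultrafilter ℕ) (f : ℕ → ℚ) : f ∈ Z U ↔ ∀ᶠ m in (U : Filter ℕ), f m = 0 := Iff.rfl

/-- the germ of a sequence -/
noncomputable def ger (U : Ultrafilter ℕ) (f : ℕ → ℤ) : (ℕ → ℚ) ⧸ Z U :=
  (Z U).mkQ (fun m => (f m : ℚ))

lemma ger_sum {ι : Type} [Fintype ι] (U : Ultrafilter ℕ) (c : ι → ℚ) (f : ι → ℕ → ℤ) :
    ∑ i, c i • ger U (f i) = (Z U).mkQ (fun m => ∑ i, c i * (f i m : ℚ)) := by
  unfold ger
  simp_rw [← map_smul]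
  rw [← map_sum]
  congr 1
  funext m
  simp [Finset.sum_apply]

lemma ger_eq {ι : Type} [Fintype ι] (U : Ultrafilter ℕ) (c : ι → ℚ) (f : ι → ℕ → ℤ) (g : ℕ → ℤ) :
    ∑ i, c i • ger U (f i) = ger U g ↔
      ∀ᶠ m in (U : Filter ℕ), (g m : ℚ) = ∑ i, c i * (f i m : ℚ) := by
  rw [ger_sum]
  unfold ger
  rw [Submodule.mkQ_apply, Submodule.mkQ_apply, Submodule.Quotient.eq, mem_Z]
  constructor
  · intro h
    filter_upwards [h] with m hm
    simp only [Pi.sub_apply] at hm
    linarith
  · intro h
    filter_upwards [h] with m hm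
    simp only [Pi.sub_apply]
    linarith

/-- the main lemma -/
theorem lin_rel (U : Ultrafilter ℕ) (b : ℕ) {ι : Type} [Fintype ι]
    (N : ℕ → ℝ) (hN : Tendsto N U atTop) (Q Y : ℕ → ℤ) (DQ : ℕ → ℕ) (z : ι → ℕ → ℤ)
    (D : ι → ℕ → ℕ) (β : ι → ℝ) (hβ : ∀ i, IsAlgebraic ℚ (β i))
    (hQ : ∀ᶠ m in (U : Filter ℕ), (DQ m : ℤ) ∣ Q m ∧ DQ m ≠ 0 ∧
      (DQ m).primeFactors ⊆ b.primeFactors)
    (hz : ∀ i, ∀ᶠ m in (U : Filter ℕ), (D i m : ℤ) ∣ z i m ∧ D i m ≠ 0 ∧
      (D i m).primeFactors ⊆ b.primeFactors)
    (c : ℝ) (hc : 0 ≤ c) (hDQ : ∀ᶠ m in (U : Filter ℕ), Real.log (DQ m) ≤ c * N m)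
    (hD : ∀ i, ∀ᶠ m in (U : Filter ℕ), Real.log (D i m) ≤ c * N m)
    (hQE : ∀ η : ℝ, 0 < η → ∀ᶠ m in (U : Filter ℕ), |(Q m : ℝ)| ≤ DQ m * Real.exp (η * N m))
    (hzE : ∀ i, ∀ η : ℝ, 0 < η → ∀ᶠ m in (U : Filter ℕ),
      |(z i m : ℝ)| ≤ D i m * Real.exp (η * N m))
    (γ : ℝ) (hγ : 0 < γ)
    (hsmall : ∀ᶠ m in (U : Filter ℕ), |(Q m : ℝ) * Y m - ∑ i, β i * z i m| ≤
      |(Q m : ℝ)| * Real.exp (-(γ * N m))) :
    ∃ s : ι → ℚ, ∀ᶠ m in (U : Filter ℕ), ((Q m * Y m : ℤ) : ℚ) = ∑ i, s i * (z i m : ℚ) := by
  classical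
  obtain ⟨κ, a, ha, hspan, hli⟩ := exists_linearIndependent' ℚ (fun i => ger U (z i))
  have : Finite κ := Finite.of_injective a ha
  have : Fintype κ := Fintype.ofFinite κ
  set n := Fintype.card κ with hn
  set e : κ ≃ Fin n := Fintype.equivFin κ with he
  -- all are combinations
  have hr : ∀ i, ∃ r : κ → ℚ, ∑ k, r k • ger U (z (a k)) = ger U (z i) := by
    intro i
    have h1 : ger U (z i) ∈ Submodule.span ℚ (Set.range ((fun i => ger U (z i)) ∘ a)) := by
      rw [hspan]
      exact Submodule.subset_span ⟨i, rfl⟩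
    exact (Submodule.mem_span_range_iff_exists_fun ℚ).1 h1
  choose r hr using hr
  set β' : κ → ℝ := fun k => ∑ i, β i * (r i k : ℝ) with hβ'
  have hβ'alg : ∀ k, IsAlgebraic ℚ (β' k) := by
    intro k
    refine (IsIntegral.sum _ fun i _ => ?_).isAlgebraic
    have h1 : IsAlgebraic ℚ (r i k : ℝ) := isAlgebraic_algebraMap (R := ℚ) (A := ℝ) (r i k)
    exact ((hβ i).mul h1).isIntegral
  have hev : ∀ᶠ m in (U : Filter ℕ), ∀ i, (z i m : ℚ) = ∑ k, r i k * (z (a k) m : ℚ) := by
    rw [Filter.eventually_all]
    intro i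
    exact (ger_eq U (r i) (fun k => z (a k)) (z i)).1 (hr i)
  have hsum : ∀ᶠ m in (U : Filter ℕ), ∑ i, β i * (z i m : ℝ) = ∑ k, β' k * (z (a k) m : ℝ) := by
    filter_upwards [hev] with m hm
    have h1 : ∀ i, (z i m : ℝ) = ∑ k, (r i k : ℝ) * (z (a k) m : ℝ) := by
      intro i
      exact_mod_cast congrArg (fun t : ℚ => (t : ℝ)) (hm i)
    calc ∑ i, β i * (z i m : ℝ) = ∑ i, ∑ k, β i * (r i k : ℝ) * (z (a k) m : ℝ) := by
          refine Finset.sum_congr rfl fun i _ => ?_
          rw [h1 i, Finset.mul_sum]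
          refine Finset.sum_congr rfl fun k _ => by ring
      _ = ∑ k, β' k * (z (a k) m : ℝ) := by
          rw [Finset.sum_comm]
          refine Finset.sum_congr rfl fun k _ => ?_
          rw [hβ', Finset.sum_mul]
  -- the subspace theorem
  set η : ℝ := γ / (2 * (n + 1)) with hη
  have hη0 : 0 < η := by positivity
  set M : Matrix (Fin (n + 1)) (Fin (n + 1)) ℝ := fun i j =>
    Fin.lastCases (motive := fun _ => ℝ)
      (Fin.lastCases (motive := fun _ => ℝ) 1 (fun j => - β' (e.symm j)) j)
      (fun i => if (i.castSucc : Fin (n + 1)) = j then 1 else 0) i with hM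
  have hMlast : ∀ j, M (Fin.last n) j =
      Fin.lastCases (motive := fun _ => ℝ) 1 (fun j => - β' (e.symm j)) j := by
    intro j
    rw [hM]
    simp only [Fin.lastCases_last]
  have hMcast : ∀ (i : Fin n) j, M i.castSucc j = if (i.castSucc : Fin (n + 1)) = j then 1 else 0 := by
    intro i j
    rw [hM]
    simp only [Fin.lastCases_castSucc]
  set x : ℕ → Fin (n + 1) → ℤ := fun m =>
    Fin.lastCases (motive := fun _ => ℤ) (Q m * Y m) (fun j => z (a (e.symm j)) m) with hx
  set DD : ℕ → Fin (n + 1) → ℕ := fun m =>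
    Fin.lastCases (motive := fun _ => ℕ) (DQ m) (fun j => D (a (e.symm j)) m) with hDD
  set A : ℕ → Fin (n + 1) → ℝ := fun m =>
    Fin.lastCases (motive := fun _ => ℝ) (DQ m * Real.exp (η * N m) * Real.exp (-(γ * N m)))
      (fun j => D (a (e.symm j)) m * Real.exp (η * N m)) with hA
  have hxl : ∀ m, x m (Fin.last n) = Q m * Y m := fun m => by
    rw [hx]; simp only [Fin.lastCases_last]
  have hxc : ∀ m (j : Fin n), x m j.castSucc = z (a (e.symm j)) m := fun m j => by
    rw [hx]; simp only [Fin.lastCases_castSucc]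
  have hDl : ∀ m, DD m (Fin.last n) = DQ m := fun m => by
    rw [hDD]; simp only [Fin.lastCases_last]
  have hDc : ∀ m (j : Fin n), DD m j.castSucc = D (a (e.symm j)) m := fun m j => by
    rw [hDD]; simp only [Fin.lastCases_castSucc]
  have hAl : ∀ m, A m (Fin.last n) = DQ m * Real.exp (η * N m) * Real.exp (-(γ * N m)) := fun m => by
    rw [hA]; simp only [Fin.lastCases_last]
  have hAc : ∀ m (j : Fin n), A m j.castSucc = D (a (e.symm j)) m * Real.exp (η * N m) :=
    fun m j => by rw [hA]; simp only [Fin.lastCases_castSucc]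
  have hform : ∀ m, ∑ j, M (Fin.last n) j * (x m j : ℝ) =
      (Q m : ℝ) * Y m - ∑ k, β' k * (z (a k) m : ℝ) := by
    intro m
    rw [Fin.sum_univ_castSucc, hMlast, hxl]
    simp only [Fin.lastCases_last, hMlast, Fin.lastCases_castSucc, hxc]
    rw [← Equiv.sum_comp e.symm (fun k => β' k * (z (a k) m : ℝ))]
    push_cast
    simp only [neg_mul, Finset.sum_neg_distrib]
    ring
  have hN1 : ∀ᶠ m in (U : Filter ℕ), (1 : ℝ) ≤ N m := hN.eventually_ge_atTop 1
  have hzall : ∀ᶠ m in (U : Filter ℕ), ∀ i, (D i m : ℤ) ∣ z i m ∧ D i m ≠ 0 ∧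
      (D i m).primeFactors ⊆ b.primeFactors := by
    rw [Filter.eventually_all]
    exact hz
  have hDall : ∀ᶠ m in (U : Filter ℕ), ∀ i, Real.log (D i m) ≤ c * N m := by
    rw [Filter.eventually_all]
    exact hD
  have hzEall : ∀ᶠ m in (U : Filter ℕ), ∀ i, |(z i m : ℝ)| ≤ D i m * Real.exp (η * N m) := by
    rw [Filter.eventually_all]
    exact fun i => hzE i η hη0
  obtain ⟨y, hy, hyr⟩ := sub_ultra U (n := n + 1) (by omega) b M
    (by
      intro i j
      induction i using Fin.lastCases with
      | last =>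
        rw [hMlast]
        induction j using Fin.lastCases with
        | last =>
          simp only [Fin.lastCases_last]
          exact isAlgebraic_one
        | cast j =>
          simp only [Fin.lastCases_castSucc]
          exact (hβ'alg _).neg
      | cast i =>
        rw [hMcast]
        split_ifs
        · exact isAlgebraic_one
        · exact isAlgebraic_zero)
    (by
      intro i j hij
      induction i using Fin.lastCases with
      | last => exact absurd hij (by simp [Fin.le_last])
      | cast i =>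
        rw [hMcast, if_neg hij.ne])
    (by
      intro i
      induction i using Fin.lastCases with
      | last =>
        rw [hMlast]
        simp
      | cast i =>
        rw [hMcast, if_pos rfl]
        exact one_ne_zero)
    N hN x DD
    (by
      filter_upwards [hQ, hzall] with m h1 h2 l
      induction l using Fin.lastCases with
      | last => rw [hDl]; exact h1.2.1
      | cast i => rw [hDc]; exact (h2 _).2.1)
    (by
      filter_upwards [hQ, hzall] with m h1 h2 l
      induction l using Fin.lastCases with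
      | last => rw [hDl]; exact h1.2.2
      | cast i => rw [hDc]; exact (h2 _).2.2)
    (by
      filter_upwards [hQ, hzall] with m h1 h2 l
      induction l using Fin.lastCases with
      | last => rw [hDl, hxl]; exact h1.1.mul_right _
      | cast i => rw [hDc, hxc]; exact (h2 _).1)
    A
    (by
      filter_upwards [hQ, hzall] with m h1 h2 l
      induction l using Fin.lastCases with
      | last =>
        rw [hAl]
        have := Nat.pos_of_ne_zero h1.2.1
        positivity
      | cast i =>
        rw [hAc]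
        have := Nat.pos_of_ne_zero (h2 (a (e.symm i))).2.1
        positivity)
    ((n + 1) * c + η + γ) (γ / 2) (by positivity) (by positivity)
    (by
      filter_upwards [hDall, hDQ, hN1] with m h1 h2 h3
      rw [Fin.sum_univ_castSucc, hDl]
      simp only [hDc]
      have h4 : ∑ i : Fin n, Real.log (D (a (e.symm i)) m) ≤ ∑ _i : Fin n, c * N m :=
        Finset.sum_le_sum fun i _ => h1 _
      rw [Finset.sum_const, Finset.card_univ, Fintype.card_fin, nsmul_eq_mul] at h4
      have h5 : 0 ≤ (η + γ) * N m := by positivity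
      nlinarith)
    (by
      filter_upwards [hQ, hzall, hDall, hDQ, hN1] with m g1 g2 h1 h2 h3 l
      have hnc : 0 ≤ (n : ℝ) * c * N m := by positivity
      have hcN : 0 ≤ c * N m := by positivity
      have hηN : 0 ≤ η * N m := by positivity
      have hγN : 0 ≤ γ * N m := by positivity
      induction l using Fin.lastCases with
      | last =>
        rw [hAl]
        have h5 : (0 : ℝ) < DQ m := by exact_mod_cast Nat.pos_of_ne_zero g1.2.1
        rw [Real.log_mul (by positivity) (Real.exp_pos _).ne', Real.log_mul h5.ne'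
          (Real.exp_pos _).ne', Real.log_exp, Real.log_exp]
        have h6 : 0 ≤ Real.log (DQ m) := Real.log_natCast_nonneg _
        rw [abs_le]
        constructor
        · nlinarith
        · nlinarith
      | cast i =>
        rw [hAc]
        have h5 : (0 : ℝ) < D (a (e.symm i)) m := by
          exact_mod_cast Nat.pos_of_ne_zero (g2 _).2.1
        rw [Real.log_mul h5.ne' (Real.exp_pos _).ne', Real.log_exp]
        have h6 : 0 ≤ Real.log (D (a (e.symm i)) m) := Real.log_natCast_nonneg _
        have h7 := h1 (a (e.symm i))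
        rw [abs_le]
        constructor
        · nlinarith
        · nlinarith)
    (by
      filter_upwards [hQ, hzall, hN1] with m g1 g2 h3
      rw [Fin.sum_univ_castSucc, Fin.sum_univ_castSucc, hAl, hDl]
      simp only [hAc, hDc]
      have h5 : (0 : ℝ) < DQ m := by exact_mod_cast Nat.pos_of_ne_zero g1.2.1
      rw [Real.log_mul (by positivity) (Real.exp_pos _).ne', Real.log_mul h5.ne'
          (Real.exp_pos _).ne', Real.log_exp, Real.log_exp]
      have h6 : ∑ i : Fin n, Real.log (D (a (e.symm i)) m * Real.exp (η * N m)) =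
          ∑ i : Fin n, Real.log (D (a (e.symm i)) m) + n * (η * N m) := by
        have h7 : ∀ i : Fin n, Real.log (D (a (e.symm i)) m * Real.exp (η * N m)) =
            Real.log (D (a (e.symm i)) m) + η * N m := by
          intro i
          have h5 : (0 : ℝ) < D (a (e.symm i)) m := by
            exact_mod_cast Nat.pos_of_ne_zero (g2 _).2.1
          rw [Real.log_mul h5.ne' (Real.exp_pos _).ne', Real.log_exp]
        simp only [h7]
        rw [Finset.sum_add_distrib, Finset.sum_const, Finset.card_univ, Fintype.card_fin,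
          nsmul_eq_mul]
      rw [h6]
      have h8 : (n + 1) * η = γ / 2 := by
        rw [hη]
        field_simp
      have h9 : (n + 1) * (η * N m) = γ / 2 * N m := by rw [← mul_assoc, h8]
      nlinarith)
    (by
      filter_upwards [hzEall, hQE η hη0, hsmall, hsum] with m g1 g2 g3 g4 l
      induction l using Fin.lastCases with
      | last =>
        rw [hform, hAl, ← g4]
        refine g3.trans ?_
        exact mul_le_mul_of_nonneg_right g2 (Real.exp_pos _).le
      | cast i =>
        rw [hAc]
        simp only [hMcast]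
        have : ∑ j, (if (i.castSucc : Fin (n + 1)) = j then (1 : ℝ) else 0) * (x m j : ℝ) =
            z (a (e.symm i)) m := by
          rw [Finset.sum_eq_single i.castSucc]
          · rw [if_pos rfl, one_mul, hxc]
          · intro j _ hj
            rw [if_neg (Ne.symm hj), zero_mul]
          · intro h
            exact absurd (Finset.mem_univ _) h
        rw [this]
        exact g1 _)
  -- the coefficient of `Y`
  have hrel : ∀ᶠ m in (U : Filter ℕ), (∑ k, (y (e k).castSucc : ℚ) * (z (a k) m : ℚ)) +
      y (Fin.last n) * ((Q m * Y m : ℤ) : ℚ) = 0 := by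
    filter_upwards [hyr] with m hm
    rw [Fin.sum_univ_castSucc, hxl] at hm
    simp only [hxc] at hm
    have h1 : ∑ k, (y (e k).castSucc : ℚ) * (z (a k) m : ℚ) =
        ∑ i : Fin n, (y i.castSucc : ℚ) * (z (a (e.symm i)) m : ℚ) := by
      rw [← Equiv.sum_comp e.symm (fun k => (y (e k).castSucc : ℚ) * (z (a k) m : ℚ))]
      simp
    rw [h1]
    exact_mod_cast hm
  have hlast : y (Fin.last n) ≠ 0 := by
    intro h0
    have h1 : ∑ k, (y (e k).castSucc : ℚ) • ger U (z (a k)) = ger U (fun _ => 0) := by
      rw [ger_eq]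
      filter_upwards [hrel] with m hm
      rw [h0] at hm
      push_cast at hm ⊢
      linarith
    have h2 : ger U (fun _ => 0) = 0 := by
      unfold ger
      simp only [Int.cast_zero]
      exact map_zero _
    rw [h2] at h1
    have h3 := Fintype.linearIndependent_iff.1 hli (fun k => (y (e k).castSucc : ℚ)) h1
    apply hy
    funext l
    induction l using Fin.lastCases with
    | last => exact h0
    | cast i =>
      have h4 := h3 (e.symm i)
      simp only [Equiv.apply_symm_apply] at h4
      exact_mod_cast h4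
  -- the conclusion
  have hmem : ger U (fun m => Q m * Y m) ∈ Submodule.span ℚ (Set.range (fun i => ger U (z i))) := by
    rw [← hspan, Submodule.mem_span_range_iff_exists_fun]
    refine ⟨fun k => -(y (e k).castSucc : ℚ) / y (Fin.last n), ?_⟩
    simp only [Function.comp_apply]
    rw [ger_eq]
    filter_upwards [hrel] with m hm
    have h0 : (y (Fin.last n) : ℚ) ≠ 0 := by exact_mod_cast hlast
    have h1 : ∑ k, -(y (e k).castSucc : ℚ) / y (Fin.last n) * (z (a k) m : ℚ) =
        -(∑ k, (y (e k).castSucc : ℚ) * (z (a k) m : ℚ)) / y (Fin.last n) := by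
      rw [← Finset.sum_neg_distrib, Finset.sum_div]
      refine Finset.sum_congr rfl fun k _ => ?_
      ring
    rw [h1, eq_div_iff h0]
    linarith
  obtain ⟨s, hs⟩ := (Submodule.mem_span_range_iff_exists_fun ℚ).1 hmem
  exact ⟨s, (ger_eq U s z (fun m => Q m * Y m)).1 hs⟩

end Pool.Agent.D0H59.SU
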