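import Mathlib

/-!
# Elementary lemmas
-/

set_option autoImplicit false

open Finset Filter Topology

namespace Pool.Agent.D0H59.SU

/-- the binomial coefficients are rational -/
lemma choose_rat (α : ℚ) (n : ℕ) : ∃ B : ℚ, Ring.choose ((α : ℚ) : ℝ) n = (B : ℝ) := by
  have h1 := Ring.descPochhammer_eq_factorial_smul_choose ((α : ℚ) : ℝ) n
  have h2 := Ring.descPochhammer_eq_factorial_smul_choose (α : ℚ) n
  refine ⟨Ring.choose α n, ?_⟩
  have h3 : (n.factorial : ℝ) ≠ 0 := by exact_mod_cast n.factorial_ne_zero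
  have h4 : Polynomial.smeval (descPochhammer ℤ n) ((α : ℚ) : ℝ) =
      ((Polynomial.smeval (descPochhammer ℤ n) (α : ℚ) : ℚ) : ℝ) := by
    rw [← Polynomial.aeval_eq_smeval, ← Polynomial.aeval_eq_smeval]
    have := Polynomial.aeval_algebraMap_apply ℝ (α : ℚ) (descPochhammer ℤ n)
    simpa using this
  rw [h4, h2] at h1
  rw [nsmul_eq_mul, nsmul_eq_mul] at h1
  push_cast at h1
  exact (mul_left_cancel₀ h3 h1).symm

/-- the Taylor expansion of `(1 + t) ^ α` -/
lemma taylor (α : ℚ) (n : ℕ) : ∃ (B : ℕ → ℚ) (C : ℝ), 0 < C ∧ ∀ᶠ t in 𝓝 (0 : ℝ),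
    |(1 + t) ^ (α : ℝ) - ∑ i ∈ Finset.range n, (B i : ℝ) * t ^ i| ≤ C * |t| ^ n := by
  choose B hB using choose_rat α
  have h1 := (Real.one_add_rpow_hasFPowerSeriesAt_zero (a := (α : ℝ))).isBigO_sub_partialSum_pow n
  obtain ⟨C, hC, h2⟩ := h1.exists_pos
  refine ⟨B, C, hC, ?_⟩
  filter_upwards [h2.bound] with t ht
  simp only [zero_add, Real.norm_eq_abs] at ht
  rw [abs_pow, abs_abs] at ht
  refine le_trans (le_of_eq ?_) ht
  congr 2
  unfold FormalMultilinearSeries.partialSum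
  refine Finset.sum_congr rfl fun i _ => ?_
  rw [binomialSeries_apply, hB]
  simp

/-- an element of a finite set is constant along an ultrafilter -/
lemma const_of_finite (U : Ultrafilter ℕ) {T : Type} (s : Set T) (hs : s.Finite) (f : ℕ → T)
    (h : ∀ᶠ m in (U : Filter ℕ), f m ∈ s) : ∃ v, ∀ᶠ m in (U : Filter ℕ), f m = v := by
  by_contra hno
  push Not at hno
  have h1 : ∀ v ∈ s, ∀ᶠ m in (U : Filter ℕ), f m ≠ v := fun v _ => hno v
  have h2 : ∀ᶠ m in (U : Filter ℕ), ∀ v ∈ s, f m ≠ v := (Filter.eventually_all_finite hs).2 h1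
  obtain ⟨m, h3, h4⟩ := (h.and h2).exists
  exact h4 _ h3 rfl

/-- a number composed of the primes in `S` is a bounded number times a `q`-th power -/
lemma split (S : Finset ℕ) (q : ℕ) (hq : 0 < q) : ∃ R : ℕ, ∀ n ∈ Nat.factoredNumbers S,
    ∃ r w : ℕ, r ≠ 0 ∧ w ≠ 0 ∧ r ≤ R ∧ n = r * w ^ q ∧ w.primeFactors ⊆ n.primeFactors := by
  classical
  refine ⟨∏ p ∈ S.filter (· ≠ 0), p ^ q, fun n hn => ?_⟩
  have hn0 : n ≠ 0 := hn.1
  have hsub : n.primeFactors ⊆ S.filter (· ≠ 0) := by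
    intro p hp
    rw [Finset.mem_filter]
    exact ⟨hn.2 p ((Nat.mem_primeFactors_iff_mem_primeFactorsList.1 hp)), (Nat.prime_of_mem_primeFactors hp).ne_zero⟩
  refine ⟨∏ p ∈ n.primeFactors, p ^ (n.factorization p % q),
    ∏ p ∈ n.primeFactors, p ^ (n.factorization p / q), ?_, ?_, ?_, ?_, ?_⟩
  · exact Finset.prod_ne_zero_iff.2 fun p hp =>
      pow_ne_zero _ (Nat.prime_of_mem_primeFactors hp).ne_zero
  · exact Finset.prod_ne_zero_iff.2 fun p hp =>
      pow_ne_zero _ (Nat.prime_of_mem_primeFactors hp).ne_zero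
  · refine le_trans (Finset.prod_le_prod' fun p hp => ?_)
      (Finset.prod_le_prod_of_subset_of_one_le' (f := fun p => p ^ q) hsub fun p hp _ => ?_)
    · exact Nat.pow_le_pow_right (Nat.prime_of_mem_primeFactors hp).pos (Nat.mod_lt _ hq).le
    · exact Nat.one_le_pow _ _ (Nat.pos_of_ne_zero (Finset.mem_filter.1 hp).2)
  · conv_lhs => rw [← Nat.prod_factorization_pow_eq_self hn0]
    rw [← Finset.prod_pow, ← Finset.prod_mul_distrib, Finsupp.prod, Nat.support_factorization]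
    refine Finset.prod_congr rfl fun p _ => ?_
    rw [← pow_mul, ← pow_add]
    congr 1
    rw [mul_comm]
    exact (Nat.mod_add_div _ _).symm
  · intro p hp
    have h1 := Nat.prime_of_mem_primeFactors hp
    have h2 := Nat.dvd_of_mem_primeFactors hp
    obtain ⟨r, hr, h3⟩ := (Prime.dvd_finsetProd_iff h1.prime _).1 h2
    have h4 := h1.dvd_of_dvd_pow h3
    rw [(Nat.prime_dvd_prime_iff_eq h1 (Nat.prime_of_mem_primeFactors hr)).1 h4]
    exact hr

/-- `|A - B| B ^ (q - 1) ≤ |A ^ q - B ^ q|` -/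
lemma abs_sub_mul_le (A B : ℝ) (hA : 0 ≤ A) (hB : 0 ≤ B) (q : ℕ) :
    |A - B| * B ^ q ≤ |A ^ (q + 1) - B ^ (q + 1)| := by
  rcases le_total A B with h | h
  · have h1 : A ^ (q + 1) ≤ B ^ (q + 1) := pow_le_pow_left₀ hA h _
    rw [abs_of_nonpos (by linarith), abs_of_nonpos (by linarith)]
    have h2 : A ^ q ≤ B ^ q := pow_le_pow_left₀ hA h _
    have h3 : A ^ (q + 1) = A * A ^ q := by ring
    have h4 : B ^ (q + 1) = B * B ^ q := by ring
    rw [h3, h4]
    nlinarith [mul_le_mul_of_nonneg_left h2 hA]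
  · have h1 : B ^ (q + 1) ≤ A ^ (q + 1) := pow_le_pow_left₀ hB h _
    rw [abs_of_nonneg (by linarith), abs_of_nonneg (by linarith)]
    have h2 : B ^ q ≤ A ^ q := pow_le_pow_left₀ hB h _
    have h3 : A ^ (q + 1) = A * A ^ q := by ring
    have h4 : B ^ (q + 1) = B * B ^ q := by ring
    rw [h3, h4]
    nlinarith [mul_le_mul_of_nonneg_left h2 hA]

end Pool.Agent.D0H59.SU
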