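import Mathlib
import Pool.Agent.D0H59.SU.Tay
import Pool.Agent.D0H59.SU.Lin

/-!
# Sequences of counterexamples
-/

set_option autoImplicit false

open Finset Filter Topology

namespace Pool.Agent.D0H59.SU

/-- a sequence of counterexamples -/
structure Bad (p q k M : ℕ) (S : Finset ℕ) (δ ε : ℝ) where
  u : ℕ → Fin (k + 1) → ℕ
  a : ℕ → Fin (k + 1) → ℤ
  x : ℕ → ℤ
  y : ℕ → ℤ
  hu : ∀ m j, u m j ∈ Nat.factoredNumbers S
  ha0 : ∀ m, a m 0 ≠ 0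
  haM : ∀ m, |a m 0| ≤ M
  hη : ∀ m j, j ≠ 0 → |(a m j : ℝ)| ≤ M * (u m 0 : ℝ) ^ (1 / ((m : ℝ) + 1))
  hδ : ∀ m j, j ≠ 0 → |(a m j : ℝ)| * u m j ≤ M * (u m 0 : ℝ) ^ (1 - δ)
  huu : ∀ m j, u m j ≤ (M + 1) * u m 0
  hx : ∀ m, x m = ∑ j, a m j * u m j
  hne : ∀ m, y m ^ q ≠ x m ^ p
  hbad : ∀ m, |(y m : ℝ) ^ q - (x m : ℝ) ^ p| < 1 / ((m : ℝ) + 1) *
    (max (|(x m : ℝ)| ^ p) (|(y m : ℝ)| ^ q)) ^ (1 - 1 / (p : ℝ) - 1 / (q : ℝ) - ε)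

namespace Bad

variable {p q k M : ℕ} {S : Finset ℕ} {δ ε : ℝ} (B : Bad p q k M S δ ε)

/-- the size of the pair -/
noncomputable def mx (m : ℕ) : ℝ := max (|(B.x m : ℝ)| ^ p) (|(B.y m : ℝ)| ^ q)

/-- the logarithm of the dominant term -/
noncomputable def N (m : ℕ) : ℝ := Real.log (B.u m 0)

lemma u_pos (m : ℕ) (j : Fin (k + 1)) : 0 < B.u m j := Nat.pos_of_ne_zero (B.hu m j).1

lemma one_le (m : ℕ) : 1 ≤ |(B.y m : ℝ) ^ q - (B.x m : ℝ) ^ p| := by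
  have h1 : (1 : ℤ) ≤ |B.y m ^ q - B.x m ^ p| := Int.one_le_abs (sub_ne_zero.2 (B.hne m))
  exact_mod_cast h1

lemma one_le_mx (hp : 1 ≤ p) (hq : 1 ≤ q) (m : ℕ) : 1 ≤ B.mx m := by
  by_cases hx : B.x m = 0
  · have hy : B.y m ≠ 0 := by
      intro hy
      apply B.hne m
      rw [hx, hy, zero_pow (by omega), zero_pow (by omega)]
    have h1 : (1 : ℝ) ≤ |(B.y m : ℝ)| := by exact_mod_cast Int.one_le_abs hy
    exact le_max_of_le_right (one_le_pow₀ h1)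
  · have h1 : (1 : ℝ) ≤ |(B.x m : ℝ)| := by exact_mod_cast Int.one_le_abs hx
    exact le_max_of_le_left (one_le_pow₀ h1)

lemma hbad' (m : ℕ) : |(B.y m : ℝ) ^ q - (B.x m : ℝ) ^ p| < 1 / ((m : ℝ) + 1) *
    B.mx m ^ (1 - 1 / (p : ℝ) - 1 / (q : ℝ) - ε) := B.hbad m

include B in
lemma E_pos (hp : 1 ≤ p) (hq : 1 ≤ q) : 0 < 1 - 1 / (p : ℝ) - 1 / (q : ℝ) - ε := by
  by_contra hE
  push Not at hE
  have h1 := B.hbad' 0
  have h2 : B.mx 0 ^ (1 - 1 / (p : ℝ) - 1 / (q : ℝ) - ε) ≤ 1 :=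
    Real.rpow_le_one_of_one_le_of_nonpos (B.one_le_mx hp hq 0) hE
  have h3 := B.one_le 0
  rw [Nat.cast_zero, zero_add, div_one, one_mul] at h1
  linarith

lemma rpow_le_mx (hp : 1 ≤ p) (hq : 1 ≤ q) (hε : 0 < ε) (m : ℕ) :
    B.mx m ^ (1 - 1 / (p : ℝ) - 1 / (q : ℝ) - ε) ≤ B.mx m := by
  have h1 := B.one_le_mx hp hq m
  have h2 : 0 ≤ 1 / (p : ℝ) := by positivity
  have h3 : 0 ≤ 1 / (q : ℝ) := by positivity
  calc B.mx m ^ (1 - 1 / (p : ℝ) - 1 / (q : ℝ) - ε) ≤ B.mx m ^ (1 : ℝ) :=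
        Real.rpow_le_rpow_of_exponent_le h1 (by linarith)
    _ = B.mx m := Real.rpow_one _

lemma abs_le (m : ℕ) : abs (|(B.y m : ℝ)| ^ q - |(B.x m : ℝ)| ^ p) ≤
    |(B.y m : ℝ) ^ q - (B.x m : ℝ) ^ p| := by
  rw [← abs_pow, ← abs_pow]
  exact abs_abs_sub_abs_le _ _

lemma mx_le (hp : 1 ≤ p) (hq : 1 ≤ q) (hε : 0 < ε) (m : ℕ) (hm : 1 ≤ m) :
    B.mx m ≤ 2 * |(B.x m : ℝ)| ^ p := by
  have h1 := B.abs_le m
  have h2 := B.hbad' m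
  have h3 := B.rpow_le_mx hp hq hε m
  have h4 := B.one_le_mx hp hq m
  have hm' : (1 : ℝ) ≤ m := by exact_mod_cast hm
  have h5 : 1 / ((m : ℝ) + 1) ≤ 1 / 2 := by
    rw [div_le_div_iff₀ (by positivity) (by positivity)]
    linarith
  have h6 : 1 / ((m : ℝ) + 1) * B.mx m ^ (1 - 1 / (p : ℝ) - 1 / (q : ℝ) - ε) ≤ 1 / 2 * B.mx m := by
    have h7 : 0 ≤ B.mx m ^ (1 - 1 / (p : ℝ) - 1 / (q : ℝ) - ε) :=
      Real.rpow_nonneg (by linarith) _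
    calc _ ≤ 1 / 2 * B.mx m ^ (1 - 1 / (p : ℝ) - 1 / (q : ℝ) - ε) :=
          mul_le_mul_of_nonneg_right h5 h7
      _ ≤ _ := mul_le_mul_of_nonneg_left h3 (by norm_num)
  have h7 := neg_abs_le (|(B.y m : ℝ)| ^ q - |(B.x m : ℝ)| ^ p)
  have h8 := le_abs_self (|(B.y m : ℝ)| ^ q - |(B.x m : ℝ)| ^ p)
  have h9 : 0 ≤ |(B.x m : ℝ)| ^ p := by positivity
  rcases max_choice (|(B.x m : ℝ)| ^ p) (|(B.y m : ℝ)| ^ q) with h | h
  · have : B.mx m = |(B.x m : ℝ)| ^ p := h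
    linarith
  · have : B.mx m = |(B.y m : ℝ)| ^ q := h
    linarith

lemma lt_mx (hp : 1 ≤ p) (hq : 1 ≤ q) (hε : 0 < ε) (m : ℕ) : (m : ℝ) + 1 < B.mx m := by
  have h1 := B.one_le m
  have h2 := B.hbad' m
  have h3 := B.rpow_le_mx hp hq hε m
  have h4 : (0 : ℝ) < (m : ℝ) + 1 := by positivity
  have h5 : 1 < 1 / ((m : ℝ) + 1) * B.mx m ^ (1 - 1 / (p : ℝ) - 1 / (q : ℝ) - ε) := by linarith
  rw [one_div, inv_mul_eq_div, lt_div_iff₀ h4, one_mul] at h5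
  linarith

lemma u0_ge (m : ℕ) : (1 : ℝ) ≤ B.u m 0 := by exact_mod_cast B.u_pos m 0

lemma term_le (hδ : 0 < δ) (m : ℕ) (j : Fin (k + 1)) :
    |(B.a m j : ℝ)| * B.u m j ≤ (M + 1) * B.u m 0 := by
  have h1 := B.u0_ge m
  by_cases hj : j = 0
  · rw [hj]
    have h2 : |(B.a m 0 : ℝ)| ≤ M := by exact_mod_cast B.haM m
    nlinarith
  · refine (B.hδ m j hj).trans ?_
    have h2 : (B.u m 0 : ℝ) ^ (1 - δ) ≤ (B.u m 0 : ℝ) ^ (1 : ℝ) :=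
      Real.rpow_le_rpow_of_exponent_le h1 (by linarith)
    rw [Real.rpow_one] at h2
    have h3 : (0 : ℝ) ≤ M := Nat.cast_nonneg _
    have h4 := mul_le_mul_of_nonneg_left h2 h3
    linarith

lemma x_le (hδ : 0 < δ) (m : ℕ) : |(B.x m : ℝ)| ≤ (k + 1) * (M + 1) * B.u m 0 := by
  rw [B.hx m]
  push_cast
  refine (Finset.abs_sum_le_sum_abs _ _).trans ?_
  refine (Finset.sum_le_sum (g := fun _ => ((M : ℝ) + 1) * B.u m 0) fun j _ => ?_).trans ?_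
  · rw [abs_mul, Nat.abs_cast]
    exact B.term_le hδ m j
  · rw [Finset.sum_const, Finset.card_univ, Fintype.card_fin, nsmul_eq_mul]
    push_cast
    apply le_of_eq
    ring

lemma tendsto_u (hp : 1 ≤ p) (hq : 1 ≤ q) (hδ : 0 < δ) (hε : 0 < ε) :
    Tendsto (fun m => (B.u m 0 : ℝ)) atTop atTop := by
  rw [tendsto_atTop]
  intro b
  filter_upwards [eventually_ge_atTop (⌈2 * ((k + 1) * (M + 1) * |b|) ^ p⌉₊ + 1)] with m hm
  by_contra hlt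
  push Not at hlt
  have h1 : (⌈2 * ((k + 1) * (M + 1) * |b|) ^ p⌉₊ : ℝ) + 1 ≤ m := by exact_mod_cast hm
  have h2 := Nat.le_ceil (2 * (((k : ℝ) + 1) * (M + 1) * |b|) ^ p)
  have h3 := B.lt_mx hp hq hε m
  have h4 := B.mx_le hp hq hε m (by omega)
  have h5 := B.x_le hδ m
  have h6 : |(B.x m : ℝ)| ≤ (k + 1) * (M + 1) * |b| := by
    refine h5.trans ?_
    have h7 := le_abs_self b
    apply mul_le_mul_of_nonneg_left (by linarith) (by positivity)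
  have h7 : |(B.x m : ℝ)| ^ p ≤ ((k + 1) * (M + 1) * |b|) ^ p :=
    pow_le_pow_left₀ (abs_nonneg _) h6 _
  linarith

lemma tendsto_N (hp : 1 ≤ p) (hq : 1 ≤ q) (hδ : 0 < δ) (hε : 0 < ε) :
    Tendsto B.N atTop atTop :=
  Real.tendsto_log_atTop.comp (B.tendsto_u hp hq hδ hε)

lemma exp_N (m : ℕ) : Real.exp (B.N m) = B.u m 0 := by
  unfold N
  rw [Real.exp_log (by exact_mod_cast B.u_pos m 0)]

lemma N_nonneg (m : ℕ) : 0 ≤ B.N m := Real.log_natCast_nonneg _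

lemma rpow_u (m : ℕ) (t : ℝ) : (B.u m 0 : ℝ) ^ t = Real.exp (t * B.N m) := by
  rw [Real.rpow_def_of_pos (by exact_mod_cast B.u_pos m 0), mul_comm]
  rfl

/-- the dominant term -/
def A0 (m : ℕ) : ℤ := B.a m 0 * B.u m 0

lemma A0_ne (m : ℕ) : B.A0 m ≠ 0 :=
  mul_ne_zero (B.ha0 m) (by exact_mod_cast (B.u_pos m 0).ne')

/-- the other terms -/
def σ (m : ℕ) : ℤ := ∑ j : Fin k, B.a m j.succ * B.u m j.succ

lemma x_eq (m : ℕ) : B.x m = B.A0 m + B.σ m := by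
  rw [B.hx m, Fin.sum_univ_succ]
  rfl

/-- the ratio of the other terms and the dominant one -/
noncomputable def τ (m : ℕ) : ℝ := B.σ m / B.A0 m

lemma u0_le_A0 (m : ℕ) : (B.u m 0 : ℝ) ≤ |(B.A0 m : ℝ)| := by
  unfold A0
  push_cast
  rw [abs_mul, Nat.abs_cast]
  have h1 : (1 : ℝ) ≤ |(B.a m 0 : ℝ)| := by exact_mod_cast Int.one_le_abs (B.ha0 m)
  have h2 := B.u0_ge m
  nlinarith

lemma A0_le (m : ℕ) : |(B.A0 m : ℝ)| ≤ M * B.u m 0 := by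
  unfold A0
  push_cast
  rw [abs_mul, Nat.abs_cast]
  have h1 : |(B.a m 0 : ℝ)| ≤ M := by exact_mod_cast B.haM m
  have h2 := B.u0_ge m
  nlinarith

lemma σ_le (m : ℕ) : |(B.σ m : ℝ)| ≤ k * (M * (B.u m 0 : ℝ) ^ (1 - δ)) := by
  unfold σ
  push_cast
  refine (Finset.abs_sum_le_sum_abs _ _).trans ?_
  refine (Finset.sum_le_sum (g := fun _ => M * (B.u m 0 : ℝ) ^ (1 - δ)) fun j _ => ?_).trans ?_
  · rw [abs_mul, Nat.abs_cast]
    exact B.hδ m j.succ (Fin.succ_ne_zero j)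
  · rw [Finset.sum_const, Finset.card_univ, Fintype.card_fin, nsmul_eq_mul]

lemma τ_le (m : ℕ) : |B.τ m| ≤ k * M * Real.exp (-(δ * B.N m)) := by
  unfold τ
  rw [abs_div]
  have h1 := B.u0_le_A0 m
  have h2 := B.σ_le m
  have h3 := B.u0_ge m
  rw [div_le_iff₀ (by linarith)]
  refine h2.trans ?_
  rw [B.rpow_u, ← mul_assoc, mul_assoc ((k : ℝ) * M)]
  refine mul_le_mul_of_nonneg_left ?_ (by positivity)
  calc Real.exp ((1 - δ) * B.N m) = Real.exp (-(δ * B.N m)) * B.u m 0 := by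
        rw [← B.exp_N, ← Real.exp_add]
        congr 1
        ring
    _ ≤ _ := mul_le_mul_of_nonneg_left h1 (Real.exp_pos _).le

lemma x_eq' (m : ℕ) : (B.x m : ℝ) = B.A0 m * (1 + B.τ m) := by
  have h1 : (B.A0 m : ℝ) ≠ 0 := by exact_mod_cast B.A0_ne m
  rw [B.x_eq m]
  unfold τ
  push_cast
  field_simp

end Bad

end Pool.Agent.D0H59.SU
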