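import Mathlib
import Pool.Agent.D0H59.SU.Bad

/-!
# The relation
-/

set_option autoImplicit false

open Finset Filter Topology

namespace Pool.Agent.D0H59.SU

namespace Bad

variable {p q k M : ℕ} {S : Finset ℕ} {δ ε : ℝ} (B : Bad p q k M S δ ε)

/-- the index set of the monomials -/
abbrev Idx (n k : ℕ) : Type := Σ i : Fin n, (Fin (i : ℕ) → Fin k)

/-- the monomials -/
def z (w : ℕ → ℕ) (n : ℕ) (f : Idx n k) (m : ℕ) : ℤ :=
  B.A0 m ^ (n - (f.1 : ℕ)) * (w m : ℤ) ^ p * ∏ l, (B.a m (f.2 l).succ * B.u m (f.2 l).succ)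

/-- the monomials without their coefficients -/
def D (w : ℕ → ℕ) (n : ℕ) (f : Idx n k) (m : ℕ) : ℕ :=
  B.u m 0 ^ (n - (f.1 : ℕ)) * w m ^ p * ∏ l, B.u m (f.2 l).succ

/-- `|Y - |x| ^ (p / q)| |x| ≤ 2` -/
lemma close (hp : 1 ≤ p) (hq : 1 ≤ q) (hε : 0 < ε) (m : ℕ) (hm : 1 ≤ m) :
    abs (|(B.y m : ℝ)| - |(B.x m : ℝ)| ^ ((p : ℝ) / q)) * |(B.x m : ℝ)| ≤ 2 := by
  set X : ℝ := |(B.x m : ℝ)| with hX
  set Y : ℝ := |(B.y m : ℝ)| with hY
  set E : ℝ := 1 - 1 / (p : ℝ) - 1 / (q : ℝ) - ε with hE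
  have hE0 : 0 < E := B.E_pos hp hq
  have hp0 : (0 : ℝ) < p := by exact_mod_cast hp
  have hq0 : (0 : ℝ) < q := by exact_mod_cast hq
  have hE1 : E ≤ 1 := by
    have h2 : 0 ≤ 1 / (p : ℝ) := by positivity
    have h3 : 0 ≤ 1 / (q : ℝ) := by positivity
    linarith
  have h1 := B.mx_le hp hq hε m hm
  have h2 := B.one_le_mx hp hq m
  have hX1 : 1 ≤ X := by
    have h3 : X ≠ 0 := by
      intro h0
      rw [← hX, h0, zero_pow (by omega)] at h1
      linarith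
    have h4 : B.x m ≠ 0 := by
      intro h0
      apply h3
      rw [hX, h0]
      simp
    rw [hX]
    exact_mod_cast Int.one_le_abs h4
  have hX0 : 0 < X := by linarith
  obtain ⟨q', rfl⟩ : ∃ q', q = q' + 1 := ⟨q - 1, by omega⟩
  set α : ℝ := (p : ℝ) / ((q' + 1 : ℕ) : ℝ) with hα
  have h3 : (X ^ α) ^ (q' + 1) = X ^ p := by
    rw [← Real.rpow_natCast, ← Real.rpow_mul hX0.le, hα, div_mul_cancel₀ _ hq0.ne',
      Real.rpow_natCast]
  have h4 := abs_sub_mul_le Y (X ^ α) (abs_nonneg _) (Real.rpow_nonneg hX0.le _) q'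
  rw [h3] at h4
  have h5 : |Y ^ (q' + 1) - X ^ p| ≤ 2 * X ^ ((p : ℝ) * E) := by
    refine (B.abs_le m).trans ((B.hbad' m).le.trans ?_)
    have h6 : 1 / ((m : ℝ) + 1) ≤ 1 := by
      rw [div_le_one (by positivity)]
      linarith [(Nat.cast_nonneg m : (0 : ℝ) ≤ m)]
    have h7 : B.mx m ^ E ≤ (2 * X ^ p) ^ E :=
      Real.rpow_le_rpow (by linarith) h1 hE0.le
    have h8 : (2 * X ^ p) ^ E ≤ 2 * X ^ ((p : ℝ) * E) := by
      rw [Real.mul_rpow (by norm_num) (by positivity), ← Real.rpow_natCast X p,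
        ← Real.rpow_mul hX0.le]
      apply mul_le_mul_of_nonneg_right _ (Real.rpow_nonneg hX0.le _)
      calc (2 : ℝ) ^ E ≤ 2 ^ (1 : ℝ) := Real.rpow_le_rpow_of_exponent_le (by norm_num) hE1
        _ = 2 := Real.rpow_one _
    have h9 : 0 ≤ B.mx m ^ E := Real.rpow_nonneg (by linarith) _
    calc 1 / ((m : ℝ) + 1) * B.mx m ^ E ≤ 1 * B.mx m ^ E := mul_le_mul_of_nonneg_right h6 h9
      _ ≤ _ := by rw [one_mul]; exact h7.trans h8
  have h6 : X * X ^ ((p : ℝ) * E) ≤ (X ^ α) ^ q' := by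
    rw [← Real.rpow_natCast (X ^ α) q', ← Real.rpow_mul hX0.le]
    nth_rewrite 1 [← Real.rpow_one X]
    rw [← Real.rpow_add hX0]
    apply Real.rpow_le_rpow_of_exponent_le hX1
    rw [hE, hα]
    push_cast at hq0 ⊢
    have h7 : (p : ℝ) * (1 - 1 / (p : ℝ) - 1 / ((q' : ℝ) + 1) - ε) =
        p - 1 - p / ((q' : ℝ) + 1) - p * ε := by
      field_simp
    rw [h7]
    have h8 : (p : ℝ) / ((q' : ℝ) + 1) * q' = p - p / ((q' : ℝ) + 1) := by
      field_simp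
      ring
    rw [h8]
    have h9 : 0 < (p : ℝ) * ε := by positivity
    linarith
  have h7 : 0 < X ^ ((p : ℝ) * E) := Real.rpow_pos_of_pos hX0 _
  have h8 : |Y - X ^ α| * (X * X ^ ((p : ℝ) * E)) ≤ 2 * X ^ ((p : ℝ) * E) :=
    (mul_le_mul_of_nonneg_left h6 (abs_nonneg _)).trans (h4.trans h5)
  rw [← mul_assoc] at h8
  exact le_of_mul_le_mul_right h8 h7

/-- the sum over the monomials -/
lemma sum_z (w : ℕ → ℕ) (n : ℕ) (b : ℕ → ℝ) (β : ℝ) (m : ℕ) :
    ∑ f : Idx n k, (β * b f.1) * (B.z w n f m : ℝ) =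
      (B.A0 m : ℝ) ^ n * (β * (w m : ℝ) ^ p * ∑ i ∈ Finset.range n, b i * B.τ m ^ i) := by
  have hA : (B.A0 m : ℝ) ≠ 0 := by exact_mod_cast B.A0_ne m
  rw [Fintype.sum_sigma, Finset.sum_range, Finset.mul_sum, Finset.mul_sum]
  refine Finset.sum_congr rfl fun i _ => ?_
  have h1 : ∑ g : Fin (i : ℕ) → Fin k, ∏ l, ((B.a m (g l).succ : ℝ) * B.u m (g l).succ) =
      (B.σ m : ℝ) ^ (i : ℕ) := by
    unfold σ
    push_cast
    rw [Fintype.sum_pow]
  have h2 : (B.A0 m : ℝ) ^ n * B.τ m ^ (i : ℕ) = (B.A0 m : ℝ) ^ (n - (i : ℕ)) *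
      (B.σ m : ℝ) ^ (i : ℕ) := by
    have h3 : (B.A0 m : ℝ) ^ n = (B.A0 m : ℝ) ^ (n - (i : ℕ)) * (B.A0 m : ℝ) ^ (i : ℕ) := by
      rw [← pow_add, Nat.sub_add_cancel i.2.le]
    rw [h3, mul_assoc, ← mul_pow]
    congr 2
    unfold τ
    field_simp
  calc ∑ g : Fin (i : ℕ) → Fin k, (β * b i) * (B.z w n ⟨i, g⟩ m : ℝ) =
        (β * b i) * ((B.A0 m : ℝ) ^ (n - (i : ℕ)) * (w m : ℝ) ^ p) *
          ∑ g : Fin (i : ℕ) → Fin k, ∏ l, ((B.a m (g l).succ : ℝ) * B.u m (g l).succ) := by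
        rw [Finset.mul_sum]
        refine Finset.sum_congr rfl fun g _ => ?_
        unfold z
        push_cast
        ring
    _ = _ := by
        rw [h1]
        calc _ = (β * b i) * (w m : ℝ) ^ p * ((B.A0 m : ℝ) ^ (n - (i : ℕ)) *
              (B.σ m : ℝ) ^ (i : ℕ)) := by ring
          _ = _ := by rw [← h2]; ring

/-- `z` is `D` times a small number -/
lemma z_eq (w : ℕ → ℕ) (n : ℕ) (f : Idx n k) (m : ℕ) :
    B.z w n f m = B.D w n f m * (B.a m 0 ^ (n - (f.1 : ℕ)) * ∏ l, B.a m (f.2 l).succ) := by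
  unfold z D A0
  rw [Finset.prod_mul_distrib, mul_pow]
  push_cast
  ring

/-- the bound for the coefficients -/
noncomputable def Eb (n m : ℕ) : ℝ :=
  (M + 1) ^ n * ((M + 1) ^ n * Real.exp (n * (B.N m / ((m : ℝ) + 1))))

lemma coef_le (n m : ℕ) {i : ℕ} (hi : i ≤ n) (g : Fin i → Fin k) :
    |((B.a m 0 ^ (n - i) * ∏ l, B.a m (g l).succ : ℤ) : ℝ)| ≤ B.Eb n m := by
  push_cast
  rw [abs_mul, abs_pow, Finset.abs_prod]
  unfold Eb
  have h1 : |(B.a m 0 : ℝ)| ≤ M + 1 := by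
    have : |(B.a m 0 : ℝ)| ≤ M := by exact_mod_cast B.haM m
    linarith
  have hN := B.N_nonneg m
  have h0 : 0 ≤ B.N m / ((m : ℝ) + 1) := by positivity
  have hM : (1 : ℝ) ≤ (M : ℝ) + 1 := by linarith [(Nat.cast_nonneg M : (0 : ℝ) ≤ M)]
  apply mul_le_mul
  · calc |(B.a m 0 : ℝ)| ^ (n - i) ≤ ((M : ℝ) + 1) ^ (n - i) := pow_le_pow_left₀ (abs_nonneg _) h1 _
      _ ≤ ((M : ℝ) + 1) ^ n := pow_le_pow_right₀ hM (Nat.sub_le _ _)
  · calc ∏ l, |(B.a m (g l).succ : ℝ)| ≤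
          ∏ _l : Fin i, ((M + 1) * Real.exp (B.N m / ((m : ℝ) + 1))) := by
          refine Finset.prod_le_prod (fun _ _ => abs_nonneg _) fun l _ => ?_
          refine (B.hη m _ (Fin.succ_ne_zero _)).trans ?_
          rw [B.rpow_u]
          have h2 : Real.exp (1 / ((m : ℝ) + 1) * B.N m) = Real.exp (B.N m / ((m : ℝ) + 1)) := by
            congr 1
            ring
          rw [h2]
          exact mul_le_mul_of_nonneg_right (by linarith) (Real.exp_pos _).le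
      _ = (M + 1) ^ i * Real.exp (i * (B.N m / ((m : ℝ) + 1))) := by
          rw [Finset.prod_const, Finset.card_univ, Fintype.card_fin, mul_pow, ← Real.exp_nat_mul]
      _ ≤ _ := by
          apply mul_le_mul
          · exact pow_le_pow_right₀ hM hi
          · apply Real.exp_le_exp.2
            apply mul_le_mul_of_nonneg_right _ h0
            exact_mod_cast hi
          · positivity
          · positivity
  · positivity
  · positivity

lemma Eb_le (hp : 1 ≤ p) (hq : 1 ≤ q) (hδ : 0 < δ) (hε : 0 < ε) (n : ℕ) (η : ℝ) (hη : 0 < η) :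
    ∀ᶠ m in atTop, B.Eb n m ≤ Real.exp (η * B.N m) := by
  have hN := B.tendsto_N hp hq hδ hε
  have hM : (1 : ℝ) ≤ (M : ℝ) + 1 := by linarith [(Nat.cast_nonneg M : (0 : ℝ) ≤ M)]
  have h1 : Tendsto (fun m => η / 2 * B.N m) atTop atTop := hN.const_mul_atTop (by positivity)
  filter_upwards [h1.eventually_ge_atTop (n * Real.log (M + 1) + n * Real.log (M + 1)),
    eventually_ge_atTop ⌈2 * n / η⌉₊] with m g1 g2
  unfold Eb
  have h2 : ((M : ℝ) + 1) ^ n = Real.exp (n * Real.log (M + 1)) := by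
    rw [Real.exp_nat_mul, Real.exp_log (by linarith)]
  rw [h2, ← Real.exp_add, ← Real.exp_add]
  apply Real.exp_le_exp.2
  have h3 : 2 * n / η ≤ m := (Nat.le_ceil _).trans (by exact_mod_cast g2)
  rw [div_le_iff₀ hη] at h3
  have h4 : n * (B.N m / ((m : ℝ) + 1)) ≤ η / 2 * B.N m := by
    have hN0 := B.N_nonneg m
    rw [← mul_div_assoc, div_le_iff₀ (by positivity)]
    nlinarith
  linarith

lemma D_ne (w : ℕ → ℕ) (n : ℕ) (f : Idx n k) (m : ℕ) (hw : w m ≠ 0) : B.D w n f m ≠ 0 := by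
  unfold D
  refine mul_ne_zero (mul_ne_zero (pow_ne_zero _ (B.u_pos m 0).ne') (pow_ne_zero _ hw)) ?_
  exact Finset.prod_ne_zero_iff.2 fun l _ => (B.u_pos m _).ne'

lemma log_D_le (w : ℕ → ℕ) (n : ℕ) (f : Idx n k) (m : ℕ) (hw : w m ≠ 0) (hwu : w m ≤ B.u m 0) :
    Real.log (B.D w n f m) ≤ (2 * n + p) * B.N m + n * Real.log (M + 1) := by
  have h1 : (B.D w n f m : ℝ) ≤ (B.u m 0 : ℝ) ^ (2 * n + p) * ((M : ℝ) + 1) ^ n := by
    have h2 : B.D w n f m ≤ B.u m 0 ^ (2 * n + p) * (M + 1) ^ n := by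
      unfold D
      calc B.u m 0 ^ (n - (f.1 : ℕ)) * w m ^ p * ∏ l, B.u m (f.2 l).succ ≤
          B.u m 0 ^ n * B.u m 0 ^ p * ∏ _l : Fin (f.1 : ℕ), ((M + 1) * B.u m 0) := by
            apply Nat.mul_le_mul
            · apply Nat.mul_le_mul
              · exact Nat.pow_le_pow_right (B.u_pos m 0) (Nat.sub_le _ _)
              · exact Nat.pow_le_pow_left hwu _
            · exact Finset.prod_le_prod' fun l _ => B.huu m _
        _ ≤ B.u m 0 ^ n * B.u m 0 ^ p * ((M + 1) * B.u m 0) ^ n := by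
            rw [Finset.prod_const, Finset.card_univ, Fintype.card_fin]
            apply Nat.mul_le_mul_left
            exact Nat.pow_le_pow_right (Nat.mul_pos (Nat.succ_pos _) (B.u_pos m 0)) f.1.2.le
        _ = B.u m 0 ^ (2 * n + p) * (M + 1) ^ n := by
            rw [mul_pow]
            ring
    exact_mod_cast h2
  have h3 : (0 : ℝ) < B.D w n f m := by
    exact_mod_cast Nat.pos_of_ne_zero (B.D_ne w n f m hw)
  have h4 := Real.log_le_log h3 h1
  rw [Real.log_mul (pow_ne_zero _ (by exact_mod_cast (B.u_pos m 0).ne')) (by positivity),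
    Real.log_pow, Real.log_pow] at h4
  push_cast at h4
  exact h4

end Bad

end Pool.Agent.D0H59.SU
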