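import Mathlib
import Pool.Agent.D0H59.SU.Key

/-!
# The relation between `|y|` and the monomials
-/

set_option autoImplicit false

open Finset Filter Topology

namespace Pool.Agent.D0H59.SU

lemma fact_pow {S : Finset ℕ} {m : ℕ} (h : m ∈ Nat.factoredNumbers S) (n : ℕ) :
    m ^ n ∈ Nat.factoredNumbers S := by
  induction n with
  | zero =>
    rw [pow_zero]
    exact ⟨one_ne_zero, by simp⟩
  | succ n ih =>
    rw [pow_succ]
    exact Nat.mul_mem_factoredNumbers ih h

lemma fact_prod {S : Finset ℕ} {T : Type} [Fintype T] (f : T → ℕ)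
    (h : ∀ i, f i ∈ Nat.factoredNumbers S) : ∏ i, f i ∈ Nat.factoredNumbers S := by
  classical
  refine Finset.prod_induction f (fun m => m ∈ Nat.factoredNumbers S)
    (fun a b ha hb => Nat.mul_mem_factoredNumbers ha hb) ⟨one_ne_zero, by simp⟩ fun i _ => h i

lemma fact_primes {S : Finset ℕ} {m : ℕ} (h : m ∈ Nat.factoredNumbers S) :
    m.primeFactors ⊆ (∏ p ∈ S.filter Nat.Prime, p).primeFactors := by
  rw [Nat.primeFactors_prod fun p hp => (Finset.mem_filter.1 hp).2]
  intro p hp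
  exact Finset.mem_filter.2 ⟨Nat.primeFactors_subset_of_mem_factoredNumbers h hp,
    Nat.prime_of_mem_primeFactors hp⟩

namespace Bad

variable {p q k M : ℕ} {S : Finset ℕ} {δ ε : ℝ} (B : Bad p q k M S δ ε)

lemma tendsto_τ (hp : 1 ≤ p) (hq : 1 ≤ q) (hδ : 0 < δ) (hε : 0 < ε) :
    Tendsto B.τ atTop (𝓝 0) := by
  have hN := B.tendsto_N hp hq hδ hε
  have h1 : Tendsto (fun m => (k : ℝ) * M * Real.exp (-(δ * B.N m))) atTop (𝓝 0) := by
    have h2 : Tendsto (fun m => Real.exp (-(δ * B.N m))) atTop (𝓝 0) :=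
      Real.tendsto_exp_neg_atTop_nhds_zero.comp (hN.const_mul_atTop hδ)
    simpa using h2.const_mul ((k : ℝ) * M)
  exact squeeze_zero_norm (fun m => B.τ_le m) h1

/-- the integer `|y|` is a fixed rational combination of the monomials -/
theorem rel (hp : 1 ≤ p) (hq : 1 ≤ q) (hδ : 0 < δ) (hε : 0 < ε) (U : Ultrafilter ℕ)
    (hU : (U : Filter ℕ) ≤ atTop) :
    ∃ (α0 : ℤ) (w : ℕ → ℕ) (n : ℕ) (s : Idx n k → ℚ), α0 ≠ 0 ∧
      ∀ᶠ m in (U : Filter ℕ), B.a m 0 = α0 ∧ w m ∈ Nat.factoredNumbers S ∧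
        ((B.A0 m ^ n * |B.y m| : ℤ) : ℚ) = ∑ f, s f * (B.z w n f m : ℚ) := by
  have hp0 : (0 : ℝ) < p := by exact_mod_cast hp
  have hq0 : (0 : ℝ) < q := by exact_mod_cast hq
  obtain ⟨R, hR⟩ := split S q hq
  choose r w hr0 hw0 hrR hrw hwp using fun m => hR (B.u m 0) (B.hu m 0)
  -- the constants
  obtain ⟨α0, hα0⟩ := const_of_finite U (Set.Icc (-(M : ℤ)) M) (Set.finite_Icc _ _)
    (fun m => B.a m 0) (Filter.Eventually.of_forall fun m => by
      rw [Set.mem_Icc, ← _root_.abs_le]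
      exact B.haM m)
  obtain ⟨r0, hr0'⟩ := const_of_finite U (Set.Icc 0 R) (Set.finite_Icc _ _) r
    (Filter.Eventually.of_forall fun m => ⟨Nat.zero_le _, hrR m⟩)
  have hα00 : α0 ≠ 0 := by
    obtain ⟨m, hm⟩ := hα0.exists
    rw [← hm]
    exact B.ha0 m
  have hr00 : r0 ≠ 0 := by
    obtain ⟨m, hm⟩ := hr0'.exists
    rw [← hm]
    exact hr0 m
  have hwF : ∀ m, w m ∈ Nat.factoredNumbers S := fun m =>
    Nat.mem_factoredNumbers_of_primeFactors_subset (hw0 m)
      ((hwp m).trans (Nat.primeFactors_subset_of_mem_factoredNumbers (B.hu m 0)))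
  have hwu : ∀ m, w m ≤ B.u m 0 := by
    intro m
    calc w m = w m ^ 1 := (pow_one _).symm
      _ ≤ w m ^ q := Nat.pow_le_pow_right (Nat.pos_of_ne_zero (hw0 m)) hq
      _ ≤ r m * w m ^ q := Nat.le_mul_of_pos_left _ (Nat.pos_of_ne_zero (hr0 m))
      _ = B.u m 0 := (hrw m).symm
  set α : ℚ := (p : ℚ) / q with hα
  have hαR : ((α : ℚ) : ℝ) = (p : ℝ) / q := by
    rw [hα]
    push_cast
    rfl
  set n : ℕ := ⌈((p : ℝ) + 1) / δ⌉₊ with hn
  have hδn : (p : ℝ) + 1 ≤ δ * n := by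
    have h1 := Nat.le_ceil (((p : ℝ) + 1) / δ)
    rw [div_le_iff₀ hδ] at h1
    rw [mul_comm]
    exact h1
  obtain ⟨Bc, C, hC, hT⟩ := taylor α n
  set β0 : ℝ := (|(α0 : ℝ)| * r0) ^ ((p : ℝ) / q) with hβ0
  have hβpos : 0 < |(α0 : ℝ)| * r0 := by
    have h1 : (0 : ℝ) < |(α0 : ℝ)| := abs_pos.2 (by exact_mod_cast hα00)
    have h2 : (0 : ℝ) < r0 := by exact_mod_cast Nat.pos_of_ne_zero hr00
    positivity
  have hβ0pos : 0 < β0 := Real.rpow_pos_of_pos hβpos _
  have hβ0alg : IsAlgebraic ℚ β0 := by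
    apply IsAlgebraic.of_pow (n := q) hq
    have h1 : β0 ^ q = (((α0.natAbs * r0) ^ p : ℕ) : ℝ) := by
      rw [hβ0, ← Real.rpow_natCast, ← Real.rpow_mul hβpos.le, div_mul_cancel₀ _ hq0.ne',
        Real.rpow_natCast]
      push_cast
      rw [Nat.cast_natAbs]
      push_cast
      rfl
    rw [h1]
    exact isAlgebraic_natCast _
  have hN := B.tendsto_N hp hq hδ hε
  -- the main estimate
  have hmain : ∀ᶠ m in (U : Filter ℕ), |(((B.A0 m ^ n : ℤ)) : ℝ) * ((|B.y m| : ℤ) : ℝ) -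
      ∑ f : Idx n k, (β0 * (Bc f.1 : ℝ)) * (B.z w n f m : ℝ)| ≤
      |((B.A0 m ^ n : ℤ) : ℝ)| * Real.exp (-(1 / 2 * B.N m)) := by
    have hτ := B.tendsto_τ hp hq hδ hε
    have hτU : Tendsto B.τ U (𝓝 0) := hτ.mono_left hU
    have h2 : Tendsto (fun m => 1 / 2 * B.N m) U atTop :=
      (hN.const_mul_atTop (by norm_num)).mono_left hU
    filter_upwards [hα0, hr0', hτU.eventually hT, hτU.eventually (Metric.ball_mem_nhds 0
      (by norm_num : (0 : ℝ) < 1 / 2)), hU (eventually_ge_atTop 1),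
      h2.eventually_ge_atTop (Real.log (4 + β0 * C * (k * M) ^ n))] with m e1 e2 e3 e4 e5 e6
    rw [dist_zero_right, Real.norm_eq_abs] at e4
    rw [B.sum_z w n (fun i => (Bc i : ℝ)) β0 m]
    push_cast
    rw [← mul_sub, abs_mul]
    apply mul_le_mul_of_nonneg_left _ (abs_nonneg _)
    set X : ℝ := |(B.x m : ℝ)| with hX
    set Y : ℝ := |(B.y m : ℝ)| with hY
    set t := B.τ m with ht
    have ht' := abs_lt.1 e4
    have hA0pos : 0 < |(B.A0 m : ℝ)| := abs_pos.2 (by exact_mod_cast B.A0_ne m)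
    have hXA : X = |(B.A0 m : ℝ)| * (1 + t) := by
      rw [hX, B.x_eq' m, abs_mul, abs_of_pos (show (0 : ℝ) < 1 + t by linarith [ht'.1])]
    have hX0 : 0 < X := by
      rw [hXA]
      exact mul_pos hA0pos (by linarith [ht'.1])
    have hu1 := B.u0_ge m
    have hXu : (B.u m 0 : ℝ) ≤ 2 * X := by
      have h3 := B.u0_le_A0 m
      rw [hXA]
      nlinarith [ht'.1]
    have hA0α : |(B.A0 m : ℝ)| ^ ((p : ℝ) / q) = β0 * (w m : ℝ) ^ p := by
      have h3 : |(B.A0 m : ℝ)| = (|(α0 : ℝ)| * r0) * (w m : ℝ) ^ q := by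
        unfold A0
        rw [e1, hrw m, e2]
        push_cast
        rw [abs_mul, abs_mul, Nat.abs_cast, abs_pow, Nat.abs_cast]
        ring
      rw [h3, Real.mul_rpow hβpos.le (by positivity), ← Real.rpow_natCast (w m : ℝ) q,
        ← Real.rpow_mul (Nat.cast_nonneg _), mul_div_cancel₀ _ hq0.ne', Real.rpow_natCast]
    have hXα : X ^ ((p : ℝ) / q) = β0 * (w m : ℝ) ^ p * (1 + t) ^ ((p : ℝ) / q) := by
      rw [hXA, Real.mul_rpow hA0pos.le (by linarith [ht'.1]), hA0α]
    have hclose := B.close hp hq hε m e5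
    rw [hαR] at e3
    have f1 : |Y - X ^ ((p : ℝ) / q)| ≤ 4 * Real.exp (-B.N m) := by
      have h3 : Real.exp (-B.N m) = (B.u m 0 : ℝ)⁻¹ := by rw [Real.exp_neg, B.exp_N]
      rw [h3, ← div_eq_mul_inv, le_div_iff₀ (by linarith)]
      have h4 := mul_le_mul_of_nonneg_left hXu (abs_nonneg (Y - X ^ ((p : ℝ) / q)))
      linarith
    have f2 : |X ^ ((p : ℝ) / q) - β0 * (w m : ℝ) ^ p *
        ∑ i ∈ Finset.range n, (Bc i : ℝ) * t ^ i| ≤ β0 * C * (k * M) ^ n * Real.exp (-B.N m) := by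
      rw [hXα, ← mul_sub, abs_mul, abs_of_pos (show 0 < β0 * (w m : ℝ) ^ p by
        have : (0 : ℝ) < w m := by exact_mod_cast Nat.pos_of_ne_zero (hw0 m)
        positivity)]
      have h3 : (w m : ℝ) ^ p ≤ Real.exp (p * B.N m) := by
        rw [Real.exp_nat_mul, B.exp_N]
        exact pow_le_pow_left₀ (Nat.cast_nonneg _) (by exact_mod_cast hwu m) _
      have h4 : |t| ^ n ≤ (k * M) ^ n * Real.exp (-(((p : ℝ) + 1) * B.N m)) := by
        calc |t| ^ n ≤ (k * M * Real.exp (-(δ * B.N m))) ^ n :=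
              pow_le_pow_left₀ (abs_nonneg _) (B.τ_le m) _
          _ = (k * M) ^ n * Real.exp (n * (-(δ * B.N m))) := by
              rw [mul_pow, ← Real.exp_nat_mul]
          _ ≤ _ := by
              apply mul_le_mul_of_nonneg_left _ (by positivity)
              apply Real.exp_le_exp.2
              have := B.N_nonneg m
              nlinarith
      calc β0 * (w m : ℝ) ^ p * |(1 + t) ^ ((p : ℝ) / q) -
            ∑ i ∈ Finset.range n, (Bc i : ℝ) * t ^ i| ≤
            β0 * Real.exp (p * B.N m) * (C * ((k * M) ^ n * Real.exp (-(((p : ℝ) + 1) * B.N m)))) := by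
            apply mul_le_mul
            · exact mul_le_mul_of_nonneg_left h3 hβ0pos.le
            · exact e3.trans (mul_le_mul_of_nonneg_left h4 hC.le)
            · exact abs_nonneg _
            · positivity
        _ = β0 * C * (k * M) ^ n * (Real.exp (p * B.N m) * Real.exp (-(((p : ℝ) + 1) * B.N m))) := by
            ring
        _ = _ := by
            rw [← Real.exp_add]
            congr 2
            ring
    have f3 : |Y - β0 * (w m : ℝ) ^ p * ∑ i ∈ Finset.range n, (Bc i : ℝ) * t ^ i| ≤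
        (4 + β0 * C * (k * M) ^ n) * Real.exp (-B.N m) := by
      have h3 := abs_sub_le Y (X ^ ((p : ℝ) / q))
        (β0 * (w m : ℝ) ^ p * ∑ i ∈ Finset.range n, (Bc i : ℝ) * t ^ i)
      linarith
    refine f3.trans ?_
    have h5 : 0 < 4 + β0 * C * (k * M) ^ n := by positivity
    have h6 : (4 + β0 * C * (k * M) ^ n) ≤ Real.exp (1 / 2 * B.N m) :=
      (Real.log_le_iff_le_exp h5).1 e6
    calc (4 + β0 * C * (k * M) ^ n) * Real.exp (-B.N m) ≤
          Real.exp (1 / 2 * B.N m) * Real.exp (-B.N m) :=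
          mul_le_mul_of_nonneg_right h6 (Real.exp_pos _).le
      _ = _ := by
          rw [← Real.exp_add]
          congr 1
          ring
  -- the relation
  obtain ⟨s, hs⟩ := lin_rel U (∏ p ∈ S.filter Nat.Prime, p) (ι := Idx n k) B.N (hN.mono_left hU)
    (fun m => B.A0 m ^ n) (fun m => |B.y m|) (fun m => B.u m 0 ^ n) (fun f m => B.z w n f m)
    (fun f m => B.D w n f m) (fun f => β0 * (Bc f.1 : ℝ))
    (fun f => hβ0alg.mul (isAlgebraic_algebraMap (R := ℚ) (A := ℝ) (Bc f.1)))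
    (Filter.Eventually.of_forall fun m => ⟨by
      push_cast
      exact pow_dvd_pow_of_dvd (Dvd.intro_left _ rfl) _, pow_ne_zero _ (B.u_pos m 0).ne',
      fact_primes (fact_pow (B.hu m 0) n)⟩)
    (fun f => Filter.Eventually.of_forall fun m => ⟨by
      rw [B.z_eq]
      exact Dvd.intro _ rfl, B.D_ne w n f m (hw0 m), by
      apply fact_primes
      unfold D
      exact Nat.mul_mem_factoredNumbers (Nat.mul_mem_factoredNumbers (fact_pow (B.hu m 0) _)
        (fact_pow (hwF m) _)) (fact_prod _ fun l => B.hu m _)⟩)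
    (2 * n + p + 1) (by positivity)
    (Filter.Eventually.of_forall fun m => by
      push_cast
      rw [Real.log_pow]
      have := B.N_nonneg m
      have h1 : (0 : ℝ) ≤ n := Nat.cast_nonneg _
      show (n : ℝ) * B.N m ≤ _
      nlinarith)
    (fun f => by
      filter_upwards [hU (hN.eventually_ge_atTop (n * Real.log (M + 1)))] with m hm
      have h1 := B.log_D_le w n f m (hw0 m) (hwu m)
      linarith)
    (fun η hη => by
      filter_upwards [hU (B.Eb_le hp hq hδ hε n η hη)] with m hm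
      push_cast
      have h1 := B.coef_le n m (i := 0) (Nat.zero_le _) (fun l => l.elim0)
      simp only [Finset.univ_eq_empty, Finset.prod_empty, mul_one, Nat.sub_zero] at h1
      have h2 : |(B.A0 m : ℝ) ^ n| = (B.u m 0 : ℝ) ^ n * |((B.a m 0 ^ n : ℤ) : ℝ)| := by
        unfold A0
        push_cast
        rw [mul_pow, abs_mul, abs_pow (B.u m 0 : ℝ), Nat.abs_cast]
        ring
      rw [h2]
      exact mul_le_mul_of_nonneg_left (h1.trans hm) (by positivity))
    (fun f η hη => by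
      filter_upwards [hU (B.Eb_le hp hq hδ hε n η hη)] with m hm
      rw [B.z_eq, Int.cast_mul, abs_mul, Int.cast_natCast, Nat.abs_cast]
      exact mul_le_mul_of_nonneg_left ((B.coef_le n m f.1.2.le f.2).trans hm) (by positivity))
    (1 / 2) (by norm_num) hmain
  refine ⟨α0, w, n, s, hα00, ?_⟩
  filter_upwards [hα0, hs] with m g1 g2
  exact ⟨g1, hwF m, g2⟩

end Bad

end Pool.Agent.D0H59.SU
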