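import Mathlib
import Pool.Agent.D0H59.SU.Rel
import Pool.Agent.TH551.HA.Fin

/-!
# There are no sequences of counterexamples
-/

set_option autoImplicit false

open Finset Filter Topology

namespace Pool.Agent.D0H59.SU

/-- the group generated by the primes of `b` -/
def Gam (b : ℕ) : Subgroup ℚˣ :=
  Subgroup.closure (Set.range fun p : b.primeFactors =>
    Units.mk0 ((p : ℕ) : ℚ) (by exact_mod_cast (Nat.prime_of_mem_primeFactors p.2).ne_zero))

lemma Gam_fg (b : ℕ) : (Gam b).FG := by
  rw [Subgroup.fg_iff]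
  exact ⟨_, rfl, Set.finite_range _⟩

/-- elements of the group -/
def InG (b : ℕ) (t : ℚ) : Prop := ∃ g : Gam b, ((g : ℚˣ) : ℚ) = t

lemma InG.mul {b : ℕ} {s t : ℚ} (hs : InG b s) (ht : InG b t) : InG b (s * t) := by
  obtain ⟨g, rfl⟩ := hs
  obtain ⟨h, rfl⟩ := ht
  exact ⟨g * h, by push_cast; rfl⟩

lemma InG.div {b : ℕ} {s t : ℚ} (hs : InG b s) (ht : InG b t) : InG b (s / t) := by
  obtain ⟨g, rfl⟩ := hs
  obtain ⟨h, rfl⟩ := ht
  exact ⟨g / h, by push_cast; rfl⟩

lemma inG_one (b : ℕ) : InG b 1 := ⟨1, by simp⟩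

lemma inG_nat (b : ℕ) (n : ℕ) (hn : n ≠ 0) (h : n.primeFactors ⊆ b.primeFactors) :
    InG b n := by
  induction n using Nat.strong_induction_on with
  | _ n ih =>
    by_cases h1 : n = 1
    · rw [h1, Nat.cast_one]
      exact inG_one b
    · have hp := Nat.minFac_prime h1
      have hd := Nat.minFac_dvd n
      have hpos := Nat.pos_of_ne_zero hn
      have h2 : n / n.minFac < n := Nat.div_lt_self hpos hp.one_lt
      have h3 : n / n.minFac ≠ 0 := (Nat.div_pos (Nat.le_of_dvd hpos hd) hp.pos).ne'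
      have h4 := ih _ h2 h3 ((Nat.primeFactors_mono (Nat.div_dvd_of_dvd hd) hn).trans h)
      have h5 : InG b (n.minFac : ℕ) := by
        have h6 : n.minFac ∈ b.primeFactors := h (Nat.mem_primeFactors.2 ⟨hp, hd, hn⟩)
        exact ⟨⟨_, Subgroup.subset_closure ⟨⟨n.minFac, h6⟩, rfl⟩⟩, rfl⟩
      have h6 := h5.mul h4
      have h7 : (n : ℚ) = (n.minFac : ℕ) * ((n / n.minFac : ℕ) : ℚ) := by
        rw [← Nat.cast_mul, Nat.mul_div_cancel' hd]
      rw [h7]
      exact h6

namespace Bad

variable {p q k M : ℕ} {S : Finset ℕ} {δ ε : ℝ} (B : Bad p q k M S δ ε)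

include B in
/-- there are no sequences of counterexamples -/
theorem false (hp : 1 ≤ p) (hq : 1 ≤ q) (hδ : 0 < δ) (hε : 0 < ε) : False := by
  classical
  set U : Ultrafilter ℕ := Filter.hyperfilter ℕ with hUdef
  have hU : (U : Filter ℕ) ≤ atTop := Nat.hyperfilter_le_atTop
  obtain ⟨α0, w, n, s, hα0, hrel⟩ := B.rel hp hq hδ hε U hU
  -- denominators
  set d : ℕ := ∏ f, (s f).den with hd
  have hd0 : d ≠ 0 := Finset.prod_ne_zero_iff.2 fun f _ => (s f).den_nz
  have hnum : ∀ f, ∃ t : ℤ, s f * d = t := by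
    intro f
    refine ⟨(s f).num * ((d / (s f).den : ℕ) : ℤ), ?_⟩
    have h1 : (s f).den ∣ d := Finset.dvd_prod_of_mem _ (Finset.mem_univ f)
    have h2 : (d : ℚ) = (s f).den * ((d / (s f).den : ℕ) : ℚ) := by
      rw [← Nat.cast_mul, Nat.mul_div_cancel' h1]
    rw [Int.cast_mul, Int.cast_natCast]
    nth_rewrite 1 [h2]
    rw [← mul_assoc, Rat.mul_den_eq_num]
  choose num hnum using hnum
  -- the group
  set b : ℕ := (∏ p ∈ S.filter Nat.Prime, p) * (α0.natAbs * d) with hb
  have hb1 : (∏ p ∈ S.filter Nat.Prime, p) ≠ 0 :=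
    Finset.prod_ne_zero_iff.2 fun p hp => (Finset.mem_filter.1 hp).2.ne_zero
  have hα1 : α0.natAbs ≠ 0 := Int.natAbs_ne_zero.2 hα0
  have hb0 : b ≠ 0 := mul_ne_zero hb1 (mul_ne_zero hα1 hd0)
  have hFb : ∀ m ∈ Nat.factoredNumbers S, InG b (m : ℕ) := by
    intro m hm
    apply inG_nat b m hm.1
    exact (fact_primes hm).trans (Nat.primeFactors_mono (Dvd.intro _ rfl) hb0)
  have hdb : InG b (d : ℕ) := inG_nat b d hd0
    (Nat.primeFactors_mono ((Dvd.intro_left _ rfl : d ∣ α0.natAbs * d).trans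
      (Dvd.intro_left _ rfl)) hb0)
  have hαb : ∀ i : ℕ, InG b ((α0.natAbs ^ i : ℕ) : ℚ) := fun i =>
    inG_nat b _ (pow_ne_zero _ hα1) (by
      rcases Nat.eq_zero_or_pos i with h0 | h0
      · rw [h0, pow_zero, Nat.primeFactors_one]
        exact Finset.empty_subset _
      · rw [Nat.primeFactors_pow _ h0.ne']
        exact Nat.primeFactors_mono ((Dvd.intro _ rfl : α0.natAbs ∣ α0.natAbs * d).trans
          (Dvd.intro_left _ rfl)) hb0)
  -- the inequality for sums of S-units
  set T := Fin (k + 1) ⊕ Idx n k with hT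
  set k' := Fintype.card T with hk'
  set e : T ≃ Fin k' := Fintype.equivFin T with he
  obtain ⟨K, hK0, hK⟩ := Pool.Agent.TH551.HA.hallPow p q k' hp hq (Gam b) (Gam_fg b) (ε / 2)
    (by positivity)
  set C2 : ℝ := M + 1 + ∑ f, |(num f : ℝ)| with hC2
  have hC2nn : 0 ≤ ∑ f, |(num f : ℝ)| := Finset.sum_nonneg fun _ _ => abs_nonneg _
  have hM0 : (0 : ℝ) ≤ M := Nat.cast_nonneg _
  have hC21 : 1 ≤ C2 := by linarith
  have hN := B.tendsto_N hp hq hδ hε
  set η : ℝ := ε / (8 * K) with hη
  have hη0 : 0 < η := by positivity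
  have hKη : K * η = ε / 8 := by
    rw [hη]
    field_simp
  have hfin : ∀ᶠ m in (U : Filter ℕ), False := by
    filter_upwards [hrel, hU (B.Eb_le hp hq hδ hε (n + 1) η hη0), hU (eventually_ge_atTop 1),
      (B.tendsto_τ hp hq hδ hε).mono_left hU |>.eventually (Metric.ball_mem_nhds 0
      (by norm_num : (0 : ℝ) < 1 / 2)), hU (hN.eventually_ge_atTop (Real.log 2)),
      hU (hN.eventually_gt_atTop ((K * Real.log (K * C2) + ε / 2 * Real.log 2) / (3 * ε / 8)))]
      with m g1 g2 g3 g4 g5 g6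
    obtain ⟨g1a, g1w, g1⟩ := g1
    rw [dist_zero_right, Real.norm_eq_abs] at g4
    have hw0 : w m ≠ 0 := g1w.1
    -- the elements of the group
    have hGf : ∀ f : Idx n k, ∃ g : Gam b, ((g : ℚˣ) : ℚ) = ((w m : ℚ) ^ p *
        ∏ l, (B.u m (f.2 l).succ : ℚ)) / ((B.u m 0 : ℚ) ^ (f.1 : ℕ) *
          (α0.natAbs : ℚ) ^ (f.1 : ℕ) * d) := by
      intro f
      have h1 : InG b ((w m ^ p * ∏ l, B.u m (f.2 l).succ : ℕ) : ℚ) :=
        hFb _ (Nat.mul_mem_factoredNumbers (fact_pow g1w _) (fact_prod _ fun l => B.hu m _))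
      have h2 : InG b ((B.u m 0 ^ (f.1 : ℕ) : ℕ) : ℚ) := hFb _ (fact_pow (B.hu m 0) _)
      have h3 := h1.div ((h2.mul (hαb (f.1 : ℕ))).mul hdb)
      push_cast at h3
      exact h3
    have hGj : ∀ j, ∃ g : Gam b, ((g : ℚˣ) : ℚ) = (B.u m j : ℚ) := fun j => hFb _ (B.hu m j)
    choose Gf hGf using hGf
    choose Gj hGj using hGj
    -- the coefficients
    set cf : Idx n k → ℤ := fun f => (B.y m).sign * num f * α0.sign ^ (f.1 : ℕ) *
      ∏ l, B.a m (f.2 l).succ with hcf
    set M' : ℝ := C2 * B.Eb (n + 1) m with hM'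
    have hNm := B.N_nonneg m
    have hM1 : (1 : ℝ) ≤ (M : ℝ) + 1 := by linarith
    have hm0 : (0 : ℝ) < (m : ℝ) + 1 := by positivity
    have hEb1 : Real.exp (B.N m / ((m : ℝ) + 1)) ≤ B.Eb (n + 1) m := by
      unfold Eb
      have h0 : 0 ≤ B.N m / ((m : ℝ) + 1) := by positivity
      have h1 : Real.exp (B.N m / ((m : ℝ) + 1)) ≤
          Real.exp ((n + 1 : ℕ) * (B.N m / ((m : ℝ) + 1))) := by
        apply Real.exp_le_exp.2
        have h2 : (1 : ℝ) ≤ ((n + 1 : ℕ) : ℝ) := by
          exact_mod_cast Nat.succ_le_succ (Nat.zero_le n)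
        nlinarith
      have h3 : (1 : ℝ) ≤ ((M : ℝ) + 1) ^ (n + 1) := one_le_pow₀ hM1
      have h4 := Real.exp_pos (((n + 1 : ℕ) : ℝ) * (B.N m / ((m : ℝ) + 1)))
      have h5 : Real.exp (((n + 1 : ℕ) : ℝ) * (B.N m / ((m : ℝ) + 1))) ≤
          ((M : ℝ) + 1) ^ (n + 1) * Real.exp (((n + 1 : ℕ) : ℝ) * (B.N m / ((m : ℝ) + 1))) := by
        nlinarith
      refine h1.trans (h5.trans ?_)
      have h6 : 0 ≤ ((M : ℝ) + 1) ^ (n + 1) *
          Real.exp (((n + 1 : ℕ) : ℝ) * (B.N m / ((m : ℝ) + 1))) := by positivity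
      nlinarith
    have hEb1' : 1 ≤ B.Eb (n + 1) m := by
      refine le_trans ?_ hEb1
      rw [← Real.exp_zero]
      apply Real.exp_le_exp.2
      positivity
    have hM'1 : 1 ≤ M' := by
      rw [hM']
      nlinarith
    have hEbn : B.Eb n m ≤ B.Eb (n + 1) m := by
      unfold Eb
      apply mul_le_mul
      · exact pow_le_pow_right₀ hM1 (Nat.le_succ n)
      · apply mul_le_mul
        · exact pow_le_pow_right₀ hM1 (Nat.le_succ n)
        · apply Real.exp_le_exp.2
          apply mul_le_mul_of_nonneg_right _ (by positivity)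
          push_cast
          linarith
        · exact (Real.exp_pos _).le
        · positivity
      · positivity
      · positivity
    have hcfle : ∀ f, |(cf f : ℝ)| ≤ M' := by
      intro f
      have h1 := B.coef_le n m f.1.2.le f.2
      have h2 : |((∏ l, B.a m (f.2 l).succ : ℤ) : ℝ)| ≤ B.Eb n m := by
        refine le_trans ?_ h1
        rw [Int.cast_mul, abs_mul]
        have h3 : (1 : ℝ) ≤ |((B.a m 0 ^ (n - (f.1 : ℕ)) : ℤ) : ℝ)| := by
          exact_mod_cast Int.one_le_abs (pow_ne_zero _ (B.ha0 m))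
        have h4 := abs_nonneg ((∏ l, B.a m (f.2 l).succ : ℤ) : ℝ)
        nlinarith
      have h3 : |(num f : ℝ)| ≤ C2 := by
        have := Finset.single_le_sum (f := fun f => |(num f : ℝ)|) (fun _ _ => abs_nonneg _)
          (Finset.mem_univ f)
        linarith
      have h4 : |((B.y m).sign : ℝ)| ≤ 1 := by
        have : |(B.y m).sign| ≤ 1 := by
          rcases Int.sign_trichotomy (B.y m) with h | h | h <;> rw [h] <;> simp
        exact_mod_cast this
      have h5 : |((α0.sign ^ (f.1 : ℕ) : ℤ) : ℝ)| ≤ 1 := by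
        have h6 : |α0.sign| = 1 := Int.abs_sign_of_ne_zero hα0
        rw [Int.cast_pow, abs_pow]
        have h7 : |(α0.sign : ℝ)| = 1 := by exact_mod_cast h6
        rw [h7, one_pow]
      rw [hcf]
      beta_reduce
      rw [Int.cast_mul, Int.cast_mul, Int.cast_mul, abs_mul, abs_mul, abs_mul]
      calc |((B.y m).sign : ℝ)| * |(num f : ℝ)| * |((α0.sign ^ (f.1 : ℕ) : ℤ) : ℝ)| *
            |((∏ l, B.a m (f.2 l).succ : ℤ) : ℝ)| ≤ 1 * C2 * 1 * B.Eb (n + 1) m := by
            apply mul_le_mul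
            · apply mul_le_mul
              · exact mul_le_mul h4 h3 (abs_nonneg _) (by norm_num)
              · exact h5
              · exact abs_nonneg _
              · positivity
            · exact h2.trans hEbn
            · exact abs_nonneg _
            · positivity
        _ = M' := by rw [hM']; ring
    have hale : ∀ j, |(B.a m j : ℝ)| ≤ M' := by
      intro j
      by_cases hj : j = 0
      · rw [hj]
        have h1 : |(B.a m 0 : ℝ)| ≤ M := by exact_mod_cast B.haM m
        rw [hM']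
        nlinarith
      · have h1 := B.hη m j hj
        rw [B.rpow_u] at h1
        have h2 : Real.exp (1 / ((m : ℝ) + 1) * B.N m) = Real.exp (B.N m / ((m : ℝ) + 1)) := by
          congr 1
          ring
        rw [h2] at h1
        rw [hM']
        refine h1.trans ?_
        exact mul_le_mul (by linarith) hEb1 (Real.exp_pos _).le (by linarith)
    -- the two sums
    have hy : (B.y m : ℚ) = ∑ f, ((Gf f : ℚˣ) : ℚ) * cf f := by
      have hA : (B.A0 m : ℚ) ≠ 0 := by exact_mod_cast B.A0_ne m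
      have hA0 : (B.A0 m : ℚ) = α0 * B.u m 0 := by
        unfold A0
        rw [g1a]
        push_cast
        rfl
      have hα0q : (α0 : ℚ) ≠ 0 := by exact_mod_cast hα0
      have hu0q : (B.u m 0 : ℚ) ≠ 0 := by exact_mod_cast (B.u_pos m 0).ne'
      have hd0q : (d : ℚ) ≠ 0 := by exact_mod_cast hd0
      have hαabs : (α0.natAbs : ℚ) = |(α0 : ℚ)| := by
        rw [Nat.cast_natAbs]
        push_cast
        rfl
      have hsgn : (α0.sign : ℚ) * |(α0 : ℚ)| = α0 := by
        have := Int.sign_mul_abs α0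
        exact_mod_cast this
      have habs0 : |(α0 : ℚ)| ≠ 0 := abs_ne_zero.2 hα0q
      have hsy : (B.y m : ℚ) = ((B.y m).sign : ℚ) * ((|B.y m| : ℤ) : ℚ) := by
        have := Int.sign_mul_abs (B.y m)
        exact_mod_cast this.symm
      have h1 : ((|B.y m| : ℤ) : ℚ) = ∑ f, s f * ((B.z w n f m : ℚ) / (B.A0 m : ℚ) ^ n) := by
        have h2 : ((|B.y m| : ℤ) : ℚ) = ((B.A0 m ^ n * |B.y m| : ℤ) : ℚ) / (B.A0 m : ℚ) ^ n := by
          rw [Int.cast_mul, Int.cast_pow, mul_comm, mul_div_assoc, div_self (pow_ne_zero _ hA),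
            mul_one]
        rw [h2, g1, Finset.sum_div]
        refine Finset.sum_congr rfl fun f _ => ?_
        rw [mul_div_assoc]
      rw [hsy, h1, Finset.mul_sum]
      refine Finset.sum_congr rfl fun f _ => ?_
      rw [hGf f]
      have hsgn' : (α0.sign : ℚ) * α0 = |(α0 : ℚ)| := by
        have h3 : (α0.sign : ℚ) * α0.sign = 1 := by
          have h4 : α0.sign * α0.sign = 1 := by
            rcases Int.sign_trichotomy α0 with h | h | h
            · rw [h]; norm_num
            · exact absurd (Int.sign_eq_zero_iff_zero.1 h) hα0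
            · rw [h]; norm_num
          exact_mod_cast h4
        calc (α0.sign : ℚ) * α0 = α0.sign * (α0.sign * |(α0 : ℚ)|) := by rw [hsgn]
          _ = (α0.sign * α0.sign) * |(α0 : ℚ)| := by ring
          _ = |(α0 : ℚ)| := by rw [h3, one_mul]
      have hz : (B.z w n f m : ℚ) / (B.A0 m : ℚ) ^ n =
          (w m : ℚ) ^ p * (∏ l, ((B.a m (f.2 l).succ : ℚ) * B.u m (f.2 l).succ)) /
            (B.A0 m : ℚ) ^ (f.1 : ℕ) := by
        unfold z
        push_cast
        rw [div_eq_div_iff (pow_ne_zero _ hA) (pow_ne_zero _ hA)]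
        have h3 : (B.A0 m : ℚ) ^ n = (B.A0 m : ℚ) ^ (n - (f.1 : ℕ)) *
            (B.A0 m : ℚ) ^ (f.1 : ℕ) := by
          rw [← pow_add, Nat.sub_add_cancel f.1.2.le]
        rw [h3]
        ring
      rw [hz, Finset.prod_mul_distrib, hA0, hαabs, mul_pow]
      have hs : s f = (num f : ℚ) / d := by
        rw [eq_div_iff hd0q]
        exact hnum f
      rw [hs, hcf]
      simp only
      push_cast
      rw [← hsgn']
      have hsg0 : (α0.sign : ℚ) ≠ 0 := by
        intro h0
        rw [h0, zero_mul] at hsgn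
        exact hα0q hsgn.symm
      rw [mul_pow]
      field_simp
    have hx : (B.x m : ℚ) = ∑ j, ((Gj j : ℚˣ) : ℚ) * B.a m j := by
      rw [B.hx m]
      push_cast
      refine Finset.sum_congr rfl fun j _ => ?_
      rw [hGj j, mul_comm]
    -- apply the inequality
    set G : T → Gam b := Sum.elim Gj Gf with hG
    set ax : T → ℤ := Sum.elim (B.a m) (fun _ => 0) with hax
    set cy : T → ℤ := Sum.elim (fun _ => 0) cf with hcy
    have key := hK M' hM'1 (fun i => G (e.symm i)) (fun i => ax (e.symm i))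
      (fun i => cy (e.symm i))
      (by
        intro i
        rcases h : e.symm i with j | f
        · simp only [hax, Sum.elim_inl]
          exact hale j
        · simp only [hax, Sum.elim_inr, Int.cast_zero, abs_zero]
          linarith)
      (by
        intro i
        rcases h : e.symm i with j | f
        · simp only [hcy, Sum.elim_inl, Int.cast_zero, abs_zero]
          linarith
        · simp only [hcy, Sum.elim_inr]
          exact hcfle f)
      (B.x m) (B.y m)
      (by
        rw [Equiv.sum_comp e.symm (fun t => ((G t : ℚˣ) : ℚ) * ax t), Fintype.sum_sum_type, hx]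
        simp [hG, hax])
      (by
        rw [Equiv.sum_comp e.symm (fun t => ((G t : ℚˣ) : ℚ) * cy t), Fintype.sum_sum_type, hy]
        simp [hG, hcy])
      (B.hne m)
    -- conclusion
    set E : ℝ := 1 - 1 / (p : ℝ) - 1 / (q : ℝ) - ε with hE
    have hmx1 := B.one_le_mx hp hq m
    have hmx0 : 0 < B.mx m := by linarith
    have key' : B.mx m ^ (E + ε / 2) ≤ (K * M') ^ K * |(B.y m : ℝ) ^ q - (B.x m : ℝ) ^ p| := by
      have h1 : E + ε / 2 = 1 - 1 / (p : ℝ) - 1 / (q : ℝ) - ε / 2 := by rw [hE]; ring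
      rw [h1]
      exact key
    have hbad := B.hbad' m
    rw [← hE] at hbad
    have hKM : 0 < (K * M') ^ K := Real.rpow_pos_of_pos (by positivity) _
    have hmxE : 0 < B.mx m ^ E := Real.rpow_pos_of_pos hmx0 _
    have h1 : 1 / ((m : ℝ) + 1) * B.mx m ^ E ≤ B.mx m ^ E := by
      have h2 : 1 / ((m : ℝ) + 1) ≤ 1 := by
        rw [div_le_one (by positivity)]
        linarith [(Nat.cast_nonneg m : (0 : ℝ) ≤ m)]
      nlinarith
    have h2 : B.mx m ^ (ε / 2) ≤ (K * M') ^ K := by
      rw [Real.rpow_add hmx0] at key'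
      have h3 : B.mx m ^ E * B.mx m ^ (ε / 2) ≤ B.mx m ^ E * (K * M') ^ K := by
        refine key'.trans ?_
        rw [mul_comm]
        exact mul_le_mul_of_nonneg_right (hbad.le.trans h1) hKM.le
      exact le_of_mul_le_mul_left h3 hmxE
    have h3 : ε / 2 * Real.log (B.mx m) ≤ K * Real.log (K * M') := by
      have h4 := Real.log_le_log (Real.rpow_pos_of_pos hmx0 _) h2
      rwa [Real.log_rpow hmx0, Real.log_rpow (by positivity)] at h4
    -- lower bound for the size
    have h4 : B.N m - Real.log 2 ≤ Real.log (B.mx m) := by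
      have hu2 : (2 : ℝ) ≤ B.u m 0 := by
        rw [← B.exp_N, ← Real.log_le_iff_le_exp (by norm_num)]
        exact g5
      have h5 : (B.u m 0 : ℝ) / 2 ≤ |(B.x m : ℝ)| := by
        rw [B.x_eq' m, abs_mul]
        have h6 := B.u0_le_A0 m
        have h7 := (abs_lt.1 g4).1
        rw [abs_of_pos (show (0 : ℝ) < 1 + B.τ m by linarith)]
        nlinarith
      have h6 : (1 : ℝ) ≤ |(B.x m : ℝ)| := by linarith
      have h7 : |(B.x m : ℝ)| ≤ B.mx m := by
        refine le_trans ?_ (le_max_left _ _)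
        calc |(B.x m : ℝ)| = |(B.x m : ℝ)| ^ 1 := (pow_one _).symm
          _ ≤ |(B.x m : ℝ)| ^ p := pow_le_pow_right₀ h6 hp
      have h8 : (B.u m 0 : ℝ) / 2 ≤ B.mx m := h5.trans h7
      have h9 := Real.log_le_log (by linarith) h8
      rw [Real.log_div (by linarith) (by norm_num)] at h9
      exact h9
    -- upper bound for the constant
    have h5 : Real.log (K * M') ≤ Real.log (K * C2) + η * B.N m := by
      have h6 : K * M' ≤ K * C2 * Real.exp (η * B.N m) := by
        rw [hM', ← mul_assoc]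
        exact mul_le_mul_of_nonneg_left g2 (by positivity)
      have h7 := Real.log_le_log (by positivity) h6
      rwa [Real.log_mul (by positivity) (Real.exp_pos _).ne', Real.log_exp] at h7
    have h6 : ε / 2 * (B.N m - Real.log 2) ≤ K * (Real.log (K * C2) + η * B.N m) := by
      calc ε / 2 * (B.N m - Real.log 2) ≤ ε / 2 * Real.log (B.mx m) :=
            mul_le_mul_of_nonneg_left h4 (by positivity)
        _ ≤ K * Real.log (K * M') := h3
        _ ≤ _ := mul_le_mul_of_nonneg_left h5 hK0.le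
    have h7 : K * (Real.log (K * C2) + η * B.N m) = K * Real.log (K * C2) + ε / 8 * B.N m := by
      rw [← hKη]
      ring
    rw [h7] at h6
    rw [div_lt_iff₀ (by positivity)] at g6
    linarith
  exact hfin.exists.elim fun _ h => h

end Bad

end Pool.Agent.D0H59.SU
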